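import Pool.Agent.Lib.MP_ec2aec_co.Special

set_option autoImplicit false

namespace Pool.Agent.Lib.MP_ec2aec_co

open Finset

/-- letter `b + 1` is one of the first `ht x n` unmatched opening brackets -/
def Edge (n : ℕ) (x : Finset ℕ) (b : ℕ) : Prop :=
  b < n ∧ (∀ j, b < j → j ≤ n → ht x b < ht x j) ∧ ∀ j, j ≤ n → ht x b < ht x j + ht x n

def Val (n : ℕ) (m : ℤ) (x : Finset ℕ) : Prop := x ⊆ Icc 1 n ∧ ht x n = m

structure Flip (n : ℕ) (m : ℤ) (x y : Finset ℕ) (b : ℕ) : Prop where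
  vx : Val n (m + 2) x
  vy : Val n m y
  lt : b < n
  mem : b + 1 ∈ x
  eq : y = x.erase (b + 1)
  lo : ∀ j, j ≤ b → ht y j = ht x j
  hi : ∀ j, b < j → ht y j = ht x j - 2

variable {n : ℕ} {m : ℤ}

lemma flip_down {x : Finset ℕ} {b : ℕ} (hx : Val n (m + 2) x) (hb : b < n)
    (h : ht x b ≤ ht x (b + 1)) : ∃ y, Flip n m x y b := by
  have hm := mem_of_lt h
  refine ⟨x.erase (b + 1), hx, ⟨(erase_subset _ _).trans hx.1, ?_⟩, hb, hm, rfl, ?_, ?_⟩
  · rw [ht_erase hm, if_neg (by omega), hx.2]; ring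
  · intro j hj; rw [ht_erase hm, if_pos hj]
  · intro j hj; rw [ht_erase hm, if_neg (by omega)]

lemma flip_up {y : Finset ℕ} {b : ℕ} (hy : Val n m y) (hb : b < n)
    (h : ht y (b + 1) ≤ ht y b) : ∃ x, Flip n m x y b := by
  have hm := notMem_of_lt h
  have hi : b + 1 ∈ insert (b + 1) y := mem_insert_self _ _
  have he : (insert (b + 1) y).erase (b + 1) = y := erase_insert hm
  have hh := ht_erase hi
  rw [he] at hh
  refine ⟨insert (b + 1) y, ⟨?_, ?_⟩, hy, hb, hi, he.symm, ?_, ?_⟩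
  · exact insert_subset (mem_Icc.2 ⟨by omega, hb⟩) hy.1
  · have := hh n
    rw [if_neg (by omega), hy.2] at this
    omega
  · intro j hj; rw [hh, if_pos hj]
  · intro j hj; rw [hh, if_neg (by omega)]

lemma IsAlpha.congr {g g' : ℕ → ℤ} {a : ℕ} (h : IsAlpha g a)
    (e : ∀ j, j ≤ 2 * a + 2 → g' j = g j) : IsAlpha g' a :=
  ⟨fun i hi => by rw [e _ (by omega)]; exact h.1 i hi, by rw [e _ le_rfl]; exact h.2⟩

lemma IsPhi.congr {g g' : ℕ → ℤ} {a p : ℕ} (h : IsPhi g a p)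
    (e : ∀ j, j ≤ p + 1 → g' j = g j) : IsPhi g' a p :=
  ⟨h.1, fun j h1 h2 => by rw [e _ (by omega)]; exact h.2.1 j h1 h2,
    by rw [e _ le_rfl, e _ (by omega)]; exact h.2.2⟩

lemma IsLast.congr {g g' : ℕ → ℤ} {l : ℤ} {b : ℕ} (h : IsLast n g l b)
    (e : ∀ j, b ≤ j → g' j = g j) : IsLast n g' l b :=
  ⟨h.1, by rw [e _ le_rfl]; exact h.2.1, fun j h1 h2 => by rw [e _ h1.le]; exact h.2.2 j h1 h2⟩

lemma IsFloor.nonpos {x : Finset ℕ} {f : ℤ} (h : IsFloor n (ht x) f) : f ≤ 0 := by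
  simpa using h.1 0 (Nat.zero_le _)

lemma floor_zero {x : Finset ℕ} (h : ∀ j, j ≤ n → 0 ≤ ht x j) : IsFloor n (ht x) 0 :=
  ⟨h, 0, Nat.zero_le _, rfl⟩

/-- data of the zip move -/
structure Zip (n : ℕ) (g : ℕ → ℤ) (f : ℤ) (u3 u4 u5 b : ℕ) : Prop where
  fl : IsFloor n g f
  l3 : IsLast n g (f + 2) u3
  l4 : IsLast n g (f + 3) u4
  l5 : IsLast n g (f + 4) u5
  ch : (b = u4 ∧ u5 + u3 ≤ 2 * u4) ∨ (b = u5 ∧ 2 * u4 ≤ u5 + u3)

lemma exists_zip (g : ℕ → ℤ) {f : ℤ} (hf : IsFloor n g f) : ∃ u3 u4 u5 b, Zip n g f u3 u4 u5 b := by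
  obtain ⟨j, hj, e⟩ := hf.2
  obtain ⟨u3, -, h3⟩ := exists_isLast n g (f + 2) hj (by omega)
  obtain ⟨u4, -, h4⟩ := exists_isLast n g (f + 3) hj (by omega)
  obtain ⟨u5, -, h5⟩ := exists_isLast n g (f + 4) hj (by omega)
  rcases le_total (u5 + u3) (2 * u4) with h | h
  · exact ⟨u3, u4, u5, u4, hf, h3, h4, h5, Or.inl ⟨rfl, h⟩⟩
  · exact ⟨u3, u4, u5, u5, hf, h3, h4, h5, Or.inr ⟨rfl, h⟩⟩

lemma last_facts {x : Finset ℕ} {l : ℤ} {u : ℕ} (h : IsLast n (ht x) l u) (hl : l < ht x n) :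
    u < n ∧ ht x u = l ∧ ht x (u + 1) = l + 1 := by
  have h1 : u < n := by
    rcases h.1.lt_or_eq with h1 | h1
    · exact h1
    · have := h.2.1; rw [h1] at this; omega
  have h2 := h.2.2 (u + 1) (by omega) h1
  have h3 := h.2.1
  have := ht_step x u
  omega

lemma Zip.facts (hm : 3 ≤ m) {x : Finset ℕ} (hx : Val n (m + 2) x) {f : ℤ} {u3 u4 u5 b : ℕ}
    (z : Zip n (ht x) f u3 u4 u5 b) :
    u3 < u4 ∧ u4 < u5 ∧ u5 < n ∧ u3 < b ∧ b < n ∧ ht x b < ht x (b + 1) ∧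
      (∀ j, b < j → j ≤ n → f + 4 ≤ ht x j) := by
  have hf := z.fl.nonpos
  have hn := hx.2
  obtain ⟨a1, a2, a3⟩ := last_facts z.l3 (by omega)
  obtain ⟨b1, b2, b3⟩ := last_facts z.l4 (by omega)
  obtain ⟨c1, c2, c3⟩ := last_facts z.l5 (by omega)
  have h34 : u3 < u4 := by
    by_contra hc
    have := z.l4.2.2 (u3 + 1) (by omega) a1
    omega
  have h45 : u4 < u5 := by
    by_contra hc
    have := z.l5.2.2 (u4 + 1) (by omega) b1
    omega
  refine ⟨h34, h45, c1, ?_, ?_, ?_, ?_⟩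
  · rcases z.ch with ⟨rfl, -⟩ | ⟨rfl, -⟩ <;> omega
  · rcases z.ch with ⟨rfl, -⟩ | ⟨rfl, -⟩ <;> omega
  · rcases z.ch with ⟨rfl, -⟩ | ⟨rfl, -⟩ <;> omega
  · intro j h1 h2
    have := z.l4.2.2 j (by rcases z.ch with ⟨rfl, -⟩ | ⟨rfl, -⟩ <;> omega) h2
    omega

section Main

variable (C : Finset ℕ → Prop)

/-- `C` is invariant along kept edges -/
def Inv (n : ℕ) (m : ℤ) (C : Finset ℕ → Prop) : Prop :=
  ∀ x y b, Flip n m x y b → Edge n x b → Sp n (ht x) b → Sp n (ht y) b → (C x ↔ C y)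

variable {C}

lemma zip_floor (hm : 3 ≤ m) {x y : Finset ℕ} {f : ℤ} {u3 u4 u5 b : ℕ}
    (z : Zip n (ht x) f u3 u4 u5 b) (F : Flip n m x y b) : IsFloor n (ht y) f := by
  obtain ⟨h34, h45, h5n, h3b, hbn, hup, hge⟩ := z.facts hm F.vx
  constructor
  · intro j hj
    rcases le_or_gt j b with h | h
    · rw [F.lo j h]; exact z.fl.1 j hj
    · rw [F.hi j h]; have := hge j h hj; omega
  · obtain ⟨j, hj, e⟩ := z.fl.2
    have : j ≤ b := by
      by_contra hc
      have := hge j (by omega) hj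
      omega
    exact ⟨j, hj, by rw [F.lo j this, e]⟩

lemma zip_step (hm : 3 ≤ m) (hC : Inv n m C) {x y : Finset ℕ} {f : ℤ} {u3 u4 u5 b : ℕ}
    (z : Zip n (ht x) f u3 u4 u5 b) (F : Flip n m x y b) : C x ↔ C y := by
  obtain ⟨h34, h45, h5n, h3b, hbn, hup, hge⟩ := z.facts hm F.vx
  have hfy := zip_floor hm z F
  have hf := z.fl.nonpos
  have hn := F.vx.2
  obtain ⟨a1, a2, a3⟩ := last_facts z.l3 (by omega)
  obtain ⟨b1, b2, b3⟩ := last_facts z.l4 (by omega)
  obtain ⟨c1, c2, c3⟩ := last_facts z.l5 (by omega)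
  refine hC x y b F ⟨hbn, ?_, ?_⟩ ?_ ?_
  · intro j h1 h2
    rcases z.ch with ⟨rfl, -⟩ | ⟨rfl, -⟩
    · have := z.l4.2.2 j h1 h2; omega
    · have := z.l5.2.2 j h1 h2; omega
  · intro j hj
    have := z.fl.1 j hj
    rcases z.ch with ⟨rfl, -⟩ | ⟨rfl, -⟩ <;> omega
  · right; right; right; right; right; left
    refine ⟨f, z.fl, Or.inr ?_⟩
    rcases z.ch with ⟨rfl, -⟩ | ⟨rfl, -⟩
    · exact Or.inl z.l4
    · exact Or.inr z.l5
  · right; right; right; right; right; right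
    rcases z.ch with ⟨rfl, hc⟩ | ⟨rfl, hc⟩
    · left
      refine ⟨f, u5, hfy, ⟨h5n.le, ?_, ?_⟩, h45, ?_, ?_⟩
      · rw [F.hi _ h45]; omega
      · intro j h1 h2
        rw [F.hi _ (by omega)]
        have := z.l5.2.2 j h1 h2; omega
      · rw [F.hi _ (by omega)]; omega
      · intro j h1 h2
        rw [F.lo _ h1]
        exact z.l3.2.2 j (by omega) (by omega)
    · right
      refine ⟨f, u3, hfy, ⟨a1.le, ?_, ?_⟩, h3b, hbn, ?_, ?_⟩
      · rw [F.lo _ h3b.le]; omega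
      · intro j h1 h2
        rcases le_or_gt j b with h | h
        · rw [F.lo _ h]; exact z.l3.2.2 j h1 h2
        · rw [F.hi _ h]; have := z.l5.2.2 j h h2; omega
      · rw [F.hi _ (by omega)]; omega
      · intro j h1 h2
        rw [F.lo _ h1]
        exact z.l4.2.2 j (by omega) (by omega)

/-- the chain step raises the floor -/
lemma mu_step (hm : 3 ≤ m) (hC : Inv n m C) {y : Finset ℕ} (hy : Val n m y) {f : ℤ}
    (hf : IsFloor n (ht y) f) (hneg : f < 0) :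
    ∃ x, Val n (m + 2) x ∧ IsFloor n (ht x) (f + 1) ∧ (C x ↔ C y) := by
  have hn : 0 < n := by
    rcases Nat.eq_zero_or_pos n with h | h
    · have := hy.2; rw [h] at this; simp at this; omega
    · exact h
  obtain ⟨b, -, hb, h1, h2⟩ := exists_firstMin n (ht y) hn
  obtain ⟨j0, hj0, e0⟩ := hf.2
  have hj0' : 0 < j0 := by
    rcases Nat.eq_zero_or_pos j0 with h | h
    · rw [h] at e0; simp at e0; omega
    · exact h
  have hb1 : ht y (b + 1) = f := by
    have := h1 j0 hj0' hj0; have := hf.1 (b + 1) hb; omega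
  have h3 : ∀ j, j ≤ b → f < ht y j := by
    intro j hj
    rcases Nat.eq_zero_or_pos j with h | h
    · rw [h]; simpa using hneg
    · rw [← hb1]; exact h2 j h hj
  have hbb : ht y b = f + 1 := by
    have := h3 b le_rfl; have := ht_step y b; omega
  obtain ⟨x, F⟩ := flip_up hy hb (by omega)
  have hxb : ht x b = f + 1 := by rw [← F.lo b le_rfl, hbb]
  have hxhi : ∀ j, b < j → j ≤ n → f + 2 ≤ ht x j := by
    intro j a1 a2
    have := F.hi j a1; have := hf.1 j a2; omega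
  have hfx : IsFloor n (ht x) (f + 1) := by
    refine ⟨fun j hj => ?_, b, hb.le, hxb⟩
    rcases le_or_gt j b with h | h
    · have := F.lo j h; have := h3 j h; omega
    · have := hxhi j h hj; omega
  refine ⟨x, F.vx, hfx, hC x y b F ⟨hb, ?_, ?_⟩ ?_ ?_⟩
  · intro j a1 a2; have := hxhi j a1 a2; omega
  · intro j hj; have := hfx.1 j hj; have := F.vx.2; omega
  · right; right; right; right; right; left
    refine ⟨f + 1, hfx, Or.inl ⟨hb.le, hxb.le, fun j a1 a2 => ?_⟩⟩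
    have := hxhi j a1 a2; omega
  · right; right; right; right; left
    exact ⟨hb, fun j hj => by rw [hb1]; exact hf.1 j hj, fun j hj => by rw [hb1]; exact h3 j hj⟩

lemma phi_ge {x : Finset ℕ} {a p : ℕ} (hpos : ∀ j, j ≤ n → 0 ≤ ht x j) (hn : 2 * a + 2 ≤ n)
    (ha : IsAlpha (ht x) a) (hp : IsPhi (ht x) a p) : 2 * a + 2 ≤ p := by
  have h0 := ha.1 a le_rfl
  have h1 := hpos (2 * a + 1) (by omega)
  have h2 := ha.2
  have s1 := ht_step x (2 * a)
  have s2 := ht_step x (2 * a + 1)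
  have h3 := hp.2.2
  have h4 := hp.1
  rw [show 2 * a + 1 + 1 = 2 * a + 2 from rfl] at s2
  by_contra hc
  have : p = 2 * a ∨ p = 2 * a + 1 := by omega
  rcases this with rfl | rfl
  · omega
  · rw [show 2 * a + 1 + 1 = 2 * a + 2 from rfl] at h3; omega

lemma room {x : Finset ℕ} {a : ℕ} {k : ℤ} (h : ∀ i, i ≤ a → ht x (2 * i) = 0) (hk : 2 ≤ k)
    (hx : ht x n = k) : (2 * a : ℤ) + k ≤ n := by
  have h1 : 2 * a ≤ n := by
    by_contra hc
    rcases Nat.even_or_odd' n with ⟨i, hi | hi⟩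
    · have := h i (by omega); rw [← hi] at this; omega
    · have := h i (by omega); have := ht_step x (2 * i); rw [← hi] at this; omega
  have h2 := ht_add_le x (2 * a) (n - 2 * a)
  rw [show 2 * a + (n - 2 * a) = n by omega, h a le_rfl, hx] at h2
  omega

/-- opening the first non-flat block -/
lemma open_step (hm : 3 ≤ m) (hC : Inv n m C) {y : Finset ℕ} (hy : Val n m y)
    (hpos : ∀ j, j ≤ n → 0 ≤ ht y j) {a p : ℕ} (ha : IsAlpha (ht y) a) (hp : IsPhi (ht y) a p)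
    {j0 : ℕ} (h1 : p < j0) (h2 : j0 ≤ n) (h3 : ht y j0 + 2 ≤ ht y p) :
    ∃ x, Val n (m + 2) x ∧ (∀ j, j ≤ n → 0 ≤ ht x j) ∧ IsAlpha (ht x) a ∧ IsPhi (ht x) a p ∧
      (∀ U : ℤ, (∀ j, p < j → j ≤ n → U ≤ ht y j) → ∀ j, p < j → j ≤ n → U + 1 ≤ ht x j) ∧
      (C x ↔ C y) := by
  obtain ⟨b, hb0, hb, hb1, hb2⟩ := exists_firstMin n (ht y) (show p < n by omega)
  have hroom := room ha.1 (by omega) hy.2
  have hp2 := phi_ge hpos (by omega) ha hp
  have hv := hb1 j0 h1 h2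
  have hpb : p < b := by
    rcases hb0.lt_or_eq with h | h
    · exact h
    · subst h; have := ht_step y p; omega
  have hbb : ht y b = ht y (b + 1) + 1 := by
    have := hb2 b hpb le_rfl; have := ht_step y b; omega
  obtain ⟨x, F⟩ := flip_up hy hb (by omega)
  have hax : IsAlpha (ht x) a := ha.congr fun j hj => (F.lo j (by omega)).symm
  have hpx : IsPhi (ht x) a p := hp.congr fun j hj => (F.lo j (by omega)).symm
  have hxb := F.lo b le_rfl
  have hposx : ∀ j, j ≤ n → 0 ≤ ht x j := by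
    intro j hj
    have := hpos j hj
    rcases le_or_gt j b with h | h
    · have := F.lo j h; omega
    · have := F.hi j h; omega
  have hhi : ∀ j, b < j → j ≤ n → ht x b < ht x j := by
    intro j a1 a2
    have := F.hi j a1; have := hb1 j (by omega) a2; omega
  refine ⟨x, F.vx, hposx, hax, hpx, ?_, hC x y b F ⟨hb, hhi, ?_⟩ ?_ ?_⟩
  · intro U hU j a1 a2
    have := hU (b + 1) (by omega) hb
    rcases le_or_gt j b with h | h
    · have := F.lo j h; have := hb2 j a1 h; omega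
    · have := hhi j h a2; omega
  · intro j hj
    have := hposx j hj; have := F.vx.2; have := hy.2; have := hb1 n (by omega) le_rfl
    omega
  · right; right; right; left
    refine ⟨a, p, hax, hpx, hb0, hb, hhi, fun j a1 a2 => ?_⟩
    have := F.lo j a2
    rcases a1.lt_or_eq with h | h
    · have := hb2 j h a2; omega
    · subst h; omega
  · right; right; left
    exact ⟨a, p, ha, hp, hb0, hb, hb1, hb2⟩

/-- closing the second letter after the flat part -/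
lemma close_step (hm : 3 ≤ m) (hC : Inv n m C) {x : Finset ℕ} (hx : Val n (m + 2) x)
    (hpos : ∀ j, j ≤ n → 0 ≤ ht x j) {a : ℕ} (ha : IsAlpha (ht x) a)
    (h2 : ∀ j, 2 * a + 1 < j → j ≤ n → 2 ≤ ht x j) (h4 : ht x (2 * a + 4) ≠ 2) :
    ∃ y, Flip n m x y (2 * a + 1) ∧ IsAlpha (ht y) (a + 1) ∧ (∀ j, j ≤ n → 0 ≤ ht y j) ∧
      (C x ↔ C y) := by
  have hroom := room ha.1 (by omega) hx.2
  have h0 := ha.1 a le_rfl
  have h1 : ht x (2 * a + 1) = 1 := by
    have := hpos (2 * a + 1) (by omega); have := ht_step x (2 * a); omega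
  have h22 : ht x (2 * a + 1 + 1) = 2 := by
    have := h2 (2 * a + 1 + 1) (by omega) (by omega); have := ht_step x (2 * a + 1); omega
  obtain ⟨y, F⟩ := flip_down hx (show 2 * a + 1 < n by omega) (by omega)
  have hay : IsAlpha (ht y) (a + 1) := by
    refine ⟨fun i hi => ?_, ?_⟩
    · rcases hi.lt_or_eq with h | h
      · rw [F.lo _ (by omega)]; exact ha.1 i (by omega)
      · subst h
        rw [F.hi _ (by omega), show 2 * (a + 1) = 2 * a + 1 + 1 from rfl]; omega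
    · rw [F.hi _ (by omega), show 2 * (a + 1) + 2 = 2 * a + 4 from rfl]; omega
  refine ⟨y, F, hay, ?_, hC x y _ F ⟨F.lt, ?_, ?_⟩ ?_ ?_⟩
  · intro j hj
    rcases le_or_gt j (2 * a + 1) with h | h
    · rw [F.lo j h]; exact hpos j hj
    · rw [F.hi j h]; have := h2 j h hj; omega
  · intro j a1 a2; have := h2 j a1 a2; omega
  · intro j hj; have := hpos j hj; have := hx.2; omega
  · left; exact ⟨a, ha, by omega⟩
  · left; exact ⟨a + 1, hay, by omega⟩

end Main

end Pool.Agent.Lib.MP_ec2aec_co
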