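import Pool.Agent.Lib.MP_ec2aec_co.Defs
import Pool.Agent.Lib.MP_ec2aec_co.Conn

set_option autoImplicit false

namespace Pool.Agent.Lib.MP_ec2aec_co

open Finset

variable {n : ℕ}

lemma bal_iff (x : Finset ℕ) {b j : ℕ} (h : b ≤ j) :
    (x ∩ Icc (b + 1) j).card = (Icc (b + 1) j \ x).card ↔ ht x j = ht x b := by
  obtain ⟨d, rfl⟩ : ∃ d, j = b + d := ⟨j - b, by omega⟩
  have hI : Icc (b + 1) (b + d) = Ioc b (b + d) := by
    ext a; simp only [mem_Ioc, mem_Icc]; omega
  have := ht_card_Ioc x b d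
  rw [hI]; omega

lemma ivt_down (x : Finset ℕ) (l : ℤ) (i : ℕ) (hi : l ≤ ht x i) (d : ℕ) (h : ht x (i + d) ≤ l) :
    ∃ j, i ≤ j ∧ j ≤ i + d ∧ ht x j = l := by
  induction d with
  | zero => exact ⟨i, le_rfl, le_rfl, le_antisymm h hi⟩
  | succ d ih =>
    by_cases h1 : ht x (i + d) ≤ l
    · obtain ⟨j, a1, a2, a3⟩ := ih h1
      exact ⟨j, a1, by omega, a3⟩
    · have := ht_step x (i + d)
      rw [← add_assoc] at h
      exact ⟨i + d + 1, by omega, by omega, by omega⟩

lemma ivt_up (x : Finset ℕ) (l : ℤ) (i : ℕ) (hi : ht x i ≤ l) (d : ℕ) (h : l ≤ ht x (i + d)) :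
    ∃ j, i ≤ j ∧ j ≤ i + d ∧ ht x j = l := by
  induction d with
  | zero => exact ⟨i, le_rfl, le_rfl, le_antisymm hi h⟩
  | succ d ih =>
    by_cases h1 : l ≤ ht x (i + d)
    · obtain ⟨j, a1, a2, a3⟩ := ih h1
      exact ⟨j, a1, by omega, a3⟩
    · have := ht_step x (i + d)
      rw [← add_assoc] at h
      exact ⟨i + d + 1, by omega, by omega, by omega⟩

lemma unmatched_up {x : Finset ℕ} {b : ℕ} (hb : b + 1 ∈ x) :
    ¬ Matched n x (b + 1) ↔ ∀ j, b < j → j ≤ n → ht x b < ht x j := by
  have hu := ht_up hb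
  constructor
  · intro h j h1 h2
    by_contra hc
    obtain ⟨d, rfl⟩ : ∃ d, j = b + 1 + d := ⟨j - (b + 1), by omega⟩
    obtain ⟨j', a1, a2, a3⟩ := ivt_down x (ht x b) (b + 1) (by omega) d (by omega)
    have : b + 1 < j' := by
      rcases a1.lt_or_eq with h | h
      · exact h
      · subst h; omega
    exact h (Or.inl ⟨hb, j', this, by omega, (bal_iff x (by omega)).2 a3⟩)
  · rintro h (⟨-, j, h1, h2, h3⟩ | ⟨h1, -⟩)
    · have := (bal_iff x (by omega)).1 h3
      have := h j (by omega) h2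
      omega
    · exact h1 hb

lemma unmatched_down {x : Finset ℕ} {b : ℕ} (hb : b + 1 ∉ x) (h : ¬ Matched n x (b + 1)) :
    ∀ j, j ≤ b → ht x (b + 1) < ht x j := by
  have hu := ht_down hb
  intro j h1
  by_contra hc
  obtain ⟨d, rfl⟩ : ∃ d, b = j + d := ⟨b - j, by omega⟩
  obtain ⟨j', a1, a2, a3⟩ := ivt_up x (ht x (j + d + 1)) j (by omega) d (by omega)
  have : j' < j + d := by
    rcases a2.lt_or_eq with h | h
    · exact h
    · subst h; omega
  exact h (Or.inr ⟨hb, j' + 1, by omega, by omega, (bal_iff x (by omega)).2 a3.symm⟩)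

lemma Edge.mem {x : Finset ℕ} {b : ℕ} (h : Edge n x b) : b + 1 ∈ x :=
  mem_of_lt (h.2.1 (b + 1) (by omega) h.1).le

open Classical in
/-- explicit form of the map `p` -/
noncomputable def pexp (n : ℕ) (x : Finset ℕ) : Finset ℕ := x.filter fun i => ¬ Edge n x (i - 1)

open Classical in
lemma card_edges {x : Finset ℕ} (hx : x ⊆ Icc 1 n) (h0 : 0 ≤ ht x n) :
    ((x.filter fun i => Edge n x (i - 1)).card : ℤ) = ht x n := by
  obtain ⟨f, hf⟩ := exists_isFloor n (ht x)
  have hf0 := hf.nonpos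
  obtain ⟨j0, hj0, e0⟩ := hf.2
  have : (x.filter fun i => Edge n x (i - 1)).card = (Ico f (f + ht x n)).card := by
    refine card_bij (fun i _ => ht x (i - 1)) ?_ ?_ ?_
    · intro i hi
      have E := (mem_filter.1 hi).2
      have := hf.1 (i - 1) E.1.le
      have := E.2.2 j0 hj0
      exact mem_Ico.2 ⟨by omega, by omega⟩
    · intro i hi i' hi' e
      obtain ⟨a1, E⟩ := mem_filter.1 hi
      obtain ⟨a1', E'⟩ := mem_filter.1 hi'
      have := mem_Icc.1 (hx a1)
      have := mem_Icc.1 (hx a1')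
      rcases lt_trichotomy i i' with h | h | h
      · have := E.2.1 (i' - 1) (by omega) (by omega); omega
      · exact h
      · have := E'.2.1 (i - 1) (by omega) (by omega); omega
    · intro l hl
      obtain ⟨l1, l2⟩ := mem_Ico.1 hl
      obtain ⟨u, -, hu⟩ := exists_isLast n (ht x) l hj0 (by omega)
      obtain ⟨a1, a2, a3⟩ := last_facts hu (by omega)
      have E : Edge n x u := ⟨a1, fun j b1 b2 => by have := hu.2.2 j b1 b2; omega,
        fun j hj => by have := hf.1 j hj; omega⟩
      exact ⟨u + 1, mem_filter.2 ⟨E.mem, by simpa using E⟩, by simpa using a2⟩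
  rw [this, Int.card_Ico]; omega

lemma card_pexp {x : Finset ℕ} (hx : x ⊆ Icc 1 n) (h0 : 0 ≤ ht x n) :
    x.card + (pexp n x).card = n := by
  classical
  have h1 := card_edges hx h0
  have h2 := card_filter_add_card_filter_not (s := x) (fun i => Edge n x (i - 1))
  have h3 := ht_total hx
  have h4 : (pexp n x).card = (x.filter fun i => ¬ Edge n x (i - 1)).card := by
    unfold pexp; congr
  have h5 : ((x.filter fun i => Edge n x (i - 1)).card : ℤ) = ht x n := by convert h1
  omega

lemma rank_iff (U : Finset ℕ) (θ : ℕ) {u : ℕ} (hu : u ∈ U) :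
    (U.filter fun v => v < θ).card < (U.filter fun v => v ≤ u).card ↔ θ ≤ u := by
  constructor
  · intro h
    by_contra hc
    have : (U.filter fun v => v ≤ u) ⊆ U.filter fun v => v < θ := by
      intro v hv
      simp only [mem_filter] at hv ⊢
      exact ⟨hv.1, by omega⟩
    have := card_le_card this
    omega
  · intro h
    refine card_lt_card ⟨fun v hv => ?_, fun hs => ?_⟩
    · simp only [mem_filter] at hv ⊢
      exact ⟨hv.1, by omega⟩
    · have := hs (mem_filter.2 ⟨hu, le_rfl⟩)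
      have := (mem_filter.1 this).2
      omega

lemma pexp_mem {x : Finset ℕ} (hx : x ⊆ Icc 1 n) (h0 : 0 ≤ ht x n) : pexp n x ∈ Chain n x := by
  classical
  obtain ⟨f, hf⟩ := exists_isFloor n (ht x)
  have hf0 := hf.nonpos
  obtain ⟨j0, hj0, e0⟩ := hf.2
  obtain ⟨L, hL0, hL⟩ := exists_isLast n (ht x) (f + ht x n) hj0 (by omega)
  refine ⟨((Unm n x).filter fun v => v < L + 1).card, card_filter_le _ _, ?_⟩
  ext i
  simp only [pexp, Mplus, mem_union, mem_filter]
  constructor
  · rintro ⟨h1, h2⟩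
    by_cases hM : Matched n x i
    · exact Or.inl ⟨h1, hM⟩
    have hi := hx h1
    have hU : i ∈ Unm n x := by simp only [Unm, mem_filter]; exact ⟨hi, hM⟩
    refine Or.inr ⟨hU, (rank_iff _ _ hU).2 ?_⟩
    have := mem_Icc.1 hi
    obtain ⟨b, rfl⟩ : ∃ b, i = b + 1 := ⟨i - 1, by omega⟩
    have hup := (unmatched_up h1).1 hM
    by_contra hc
    apply h2
    have := hup L (by omega) hL.1
    have := hL.2.1
    exact ⟨by omega, by simpa using hup, fun j hj => by
      have := hf.1 j hj
      simp only [add_tsub_cancel_right]; omega⟩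
  · rintro (⟨h1, h2⟩ | ⟨h1, h2⟩)
    · refine ⟨h1, fun E => ?_⟩
      have := mem_Icc.1 (hx h1)
      obtain ⟨b, rfl⟩ : ∃ b, i = b + 1 := ⟨i - 1, by omega⟩
      exact (unmatched_up h1).2 (by simpa using E.2.1) h2
    · have h3 := (rank_iff _ _ h1).1 h2
      simp only [Unm, mem_filter] at h1
      have := mem_Icc.1 h1.1
      obtain ⟨b, rfl⟩ : ∃ b, i = b + 1 := ⟨i - 1, by omega⟩
      have hm : b + 1 ∈ x := by
        by_contra hc
        have := unmatched_down hc h1.2 j0 (by omega)
        have := hf.1 (b + 1) (by omega)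
        omega
      refine ⟨hm, fun E => ?_⟩
      have h4 := E.2.2 j0 hj0
      simp only [add_tsub_cancel_right] at h4
      have h5 := hL.2.2 (b + 1) (by omega) (by omega)
      have := ht_up hm
      omega

lemma chain_total {x z z' : Finset ℕ} (h : z ∈ Chain n x) (h' : z' ∈ Chain n x) :
    z ⊆ z' ∨ z' ⊆ z := by
  obtain ⟨s, -, rfl⟩ := h
  obtain ⟨s', -, rfl⟩ := h'
  rcases le_total s s' with h | h
  · right
    refine union_subset_union_right fun u hu => ?_
    simp only [mem_filter] at hu ⊢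
    exact ⟨hu.1, by omega⟩
  · left
    refine union_subset_union_right fun u hu => ?_
    simp only [mem_filter] at hu ⊢
    exact ⟨hu.1, by omega⟩

lemma pmap_eq {x : Finset ℕ} (hx : x ⊆ Icc 1 n) (h0 : 0 ≤ ht x n) : pmap n x = pexp n x := by
  have h1 := pexp_mem hx h0
  have h2 := card_pexp hx h0
  have h3 : pmap n x ∈ Chain n x ∧ x.card + (pmap n x).card = n :=
    Classical.epsilon_spec (p := fun z => z ∈ Chain n x ∧ x.card + z.card = n) ⟨_, h1, h2⟩
  rcases chain_total h1 h3.1 with h | h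
  · exact (eq_of_subset_of_card_le h (by omega)).symm
  · exact eq_of_subset_of_card_le h (by omega)

theorem prec_of_edge {m : ℤ} (hm : 0 ≤ m) {x y : Finset ℕ} {b : ℕ} (F : Flip n m x y b)
    (E : Edge n x b) : Prec n y x := by
  classical
  have hx := F.vx.2
  have hy := F.vy.2
  have hsub : y ⊆ x := by rw [F.eq]; exact erase_subset _ _
  rw [Prec, pmap_eq F.vx.1 (by omega), pmap_eq F.vy.1 (by omega)]
  refine ⟨fun h => ?_, fun i hi => ?_, ?_, hsub⟩
  · rw [h] at hy; omega
  · simp only [pexp, mem_filter] at hi ⊢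
    obtain ⟨h1, h2⟩ := hi
    have := mem_Icc.1 (F.vx.1 h1)
    obtain ⟨c, rfl⟩ : ∃ c, i = c + 1 := ⟨i - 1, by omega⟩
    simp only [add_tsub_cancel_right] at h2 ⊢
    have hcb : c ≠ b := fun h => h2 (h ▸ E)
    have hle : ∀ j, ht y j ≤ ht x j := fun j => by
      rcases le_or_gt j b with h | h
      · exact (F.lo j h).le
      · have := F.hi j h; omega
    refine ⟨by rw [F.eq]; exact mem_erase.2 ⟨by omega, h1⟩, fun E' => h2 ⟨E'.1, ?_, ?_⟩⟩
    · intro j a1 a2
      have := E'.2.1 j a1 a2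
      have := hle j
      rcases le_or_gt c b with h | h
      · have := F.lo c h; omega
      · have := F.hi c h; have := F.hi j (by omega); omega
    · intro j hj
      have := E'.2.2 j hj
      have := hle j
      rcases le_or_gt c b with h | h
      · have := F.lo c h; omega
      · have := F.hi c h; omega
  · unfold pexp; exact filter_subset _ _

end Pool.Agent.Lib.MP_ec2aec_co
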