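import Pool.Agent.Lib.MP_ec2aec_co.Conn

set_option autoImplicit false

namespace Pool.Agent.Lib.MP_ec2aec_co

open Finset

variable {n : ℕ} {m : ℤ} {C : Finset ℕ → Prop}

/-- all valid nonnegative upper words with at least `a` flat blocks satisfy `C` -/
def Done (n : ℕ) (m : ℤ) (C : Finset ℕ → Prop) (a : ℕ) : Prop :=
  ∀ x, Val n (m + 2) x → (∀ j, j ≤ n → 0 ≤ ht x j) → (∀ i, i ≤ a → ht x (2 * i) = 0) → C x

lemma caseA (hm : 3 ≤ m) (hC : Inv n m C) {a : ℕ} (IH : Done n m C (a + 1)) {x : Finset ℕ}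
    (hx : Val n (m + 2) x) (hpos : ∀ j, j ≤ n → 0 ≤ ht x j) (ha : IsAlpha (ht x) a) {p : ℕ}
    (hp : IsPhi (ht x) a p) {j0 : ℕ} (h1 : p < j0) (h2 : j0 ≤ n) (h3 : ht x j0 + 2 ≤ ht x p)
    (hu : ∀ j, p < j → j ≤ n → 2 ≤ ht x j) : C x := by
  have hpp := hp.2.1 p hp.1 le_rfl
  have hj0 := hu j0 h1 h2
  have hp4 : 2 * a + 4 ≤ p := by omega
  obtain ⟨y, F, hay, hposy, hxy⟩ := close_step hm hC hx hpos ha (by
    intro j a1 a2
    rcases le_or_gt j p with h | h
    · have := hp.2.1 j (by omega) h; omega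
    · exact hu j h a2) (by
    have := hp.2.1 (2 * a + 4) (by omega) hp4
    push_cast at this; omega)
  have hpy : IsPhi (ht y) (a + 1) p := by
    refine ⟨by omega, fun j a1 a2 => ?_, ?_⟩
    · rw [F.hi j (by omega), hp.2.1 j (by omega) a2]; push_cast; ring
    · rw [F.hi _ (by omega), F.hi _ (by omega)]; have := hp.2.2; omega
  obtain ⟨x', hx', hpos', ha', -, -, hx'y⟩ := open_step hm hC F.vy hposy hay hpy h1 h2 (by
    rw [F.hi _ (by omega), F.hi _ (by omega)]; omega)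
  exact hxy.2 (hx'y.1 (IH x' hx' hpos' ha'.1))

lemma caseC (hm : 3 ≤ m) (hC : Inv n m C) {a : ℕ} {x : Finset ℕ}
    (hx : Val n (m + 2) x) (hpos : ∀ j, j ≤ n → 0 ≤ ht x j) (ha : IsAlpha (ht x) a) {p : ℕ}
    (hp : IsPhi (ht x) a (p + 2)) (hpn : p + 2 < n) (h4 : 2 * a + 2 ≤ p)
    (hu : ∀ j, p + 2 < j → j ≤ n → ht x (p + 2) ≤ ht x j + 1) :
    ∃ x', Val n (m + 2) x' ∧ (∀ j, j ≤ n → 0 ≤ ht x' j) ∧ IsAlpha (ht x') a ∧
      IsPhi (ht x') a p ∧ (C x ↔ C x') := by
  have e0 := hp.2.1 p (by omega) (by omega)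
  have e1 := hp.2.1 (p + 1) (by omega) (by omega)
  have e2 := hp.2.1 (p + 2) (by omega) (by omega)
  have e3 := hp.2.2
  have e4 := hu (p + 2 + 1) (by omega) hpn
  have e5 := hu n hpn le_rfl
  have hn := hx.2
  push_cast at e1 e2
  obtain ⟨y, F⟩ := flip_down hx (show p < n by omega) (by omega)
  have hay : IsAlpha (ht y) a := ha.congr fun j hj => F.lo j (by omega)
  have hpy : IsPhi (ht y) a p := by
    refine ⟨by omega, fun j a1 a2 => ?_, ?_⟩
    · rw [F.lo j a2]; exact hp.2.1 j a1 (by omega)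
    · rw [F.lo p le_rfl, F.hi _ (by omega)]; omega
  have hge : ∀ j, p < j → j ≤ n → ht x p < ht x j := by
    intro j a1 a2
    rcases le_or_gt j (p + 2) with h | h
    · have := hp.2.1 j (by omega) h; omega
    · have := hu j h a2; omega
  have hxy : C x ↔ C y := by
    refine hC x y p F ⟨F.lt, hge, fun j hj => ?_⟩ ?_ ?_
    · have := hpos j hj; omega
    · right; left; exact ⟨a, p + 2, ha, hp, Or.inl rfl⟩
    · right; left; exact ⟨a, p, hay, hpy, Or.inr (Or.inl rfl)⟩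
  obtain ⟨x', F'⟩ := flip_up F.vy hpn (by
    rw [F.hi _ (by omega), F.hi _ (by omega)]; omega)
  have hax' : IsAlpha (ht x') a := hay.congr fun j hj => (F'.lo j (by omega)).symm
  have hpx' : IsPhi (ht x') a p := hpy.congr fun j hj => (F'.lo j (by omega)).symm
  have hpos' : ∀ j, j ≤ n → 0 ≤ ht x' j := by
    intro j hj
    have := hpos j hj
    rcases le_or_gt j p with h | h
    · have := F.lo j h; have := F'.lo j (by omega); omega
    · have := F.hi j h
      have := hge j h hj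
      rcases le_or_gt j (p + 2) with h' | h'
      · have := F'.lo j h'; omega
      · have := F'.hi j h'; omega
  have e6 := F'.lo (p + 2) le_rfl
  have e7 := F.hi (p + 2) (by omega)
  refine ⟨x', F'.vx, hpos', hax', hpx', hxy.trans (hC x' y (p + 2) F' ⟨hpn, ?_, ?_⟩ ?_ ?_).symm⟩
  · intro j a1 a2
    have := F'.hi j a1; have := F.hi j (by omega); have := hu j a1 a2; omega
  · intro j hj
    have := hpos' j hj; have := F'.vx.2; omega
  · right; left; exact ⟨a, p, hax', hpx', Or.inr (Or.inr rfl)⟩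
  · right; left; exact ⟨a, p, hay, hpy, Or.inr (Or.inr rfl)⟩

lemma caseD (hm : 3 ≤ m) (hC : Inv n m C) {a : ℕ} (IH : Done n m C (a + 1)) {x : Finset ℕ}
    (hx : Val n (m + 2) x) (hpos : ∀ j, j ≤ n → 0 ≤ ht x j) (ha : IsAlpha (ht x) a) {p : ℕ}
    (hp : IsPhi (ht x) a p) (hpn : p < n) (h4 : p ≤ 2 * a + 3)
    (hu : ∀ j, p < j → j ≤ n → ht x p ≤ ht x j + 1) : C x := by
  have hroom := room ha.1 (by omega) hx.2
  have hp2 := phi_ge hpos (by omega) ha hp
  have e0 := hp.2.1 p hp.1 le_rfl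
  have e1 := hp.2.2
  have e2 := hu (p + 1) (by omega) hpn
  obtain ⟨u3, u4, u5, b, z⟩ := exists_zip (ht x) (floor_zero hpos)
  obtain ⟨h34, h45, h5n, h3b, hbn, hup, hge⟩ := z.facts hm hx
  have hp3 : p < u3 := by
    by_contra hc
    have := z.l3.2.2 (p + 1) (by omega) hpn
    omega
  obtain ⟨y1, F1⟩ := flip_down hx hbn hup.le
  have h1 := zip_step hm hC z F1
  have hy1 : ∀ j, p < j → j ≤ n → ht x p ≤ ht y1 j + 1 := by
    intro j a1 a2
    rcases le_or_gt j b with h | h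
    · rw [F1.lo j h]; exact hu j a1 a2
    · rw [F1.hi j h]; have := hge j h a2; omega
  have ha1 : IsAlpha (ht y1) a := ha.congr fun j hj => F1.lo j (by omega)
  obtain ⟨x2, F2⟩ := flip_up F1.vy hpn (by
    rw [F1.lo _ (by omega), F1.lo _ (by omega)]; omega)
  have ha2 : IsAlpha (ht x2) a := ha1.congr fun j hj => (F2.lo j (by omega)).symm
  have hlo2 : ∀ j, j ≤ p → ht x2 j = ht x j := fun j hj => by
    rw [← F2.lo j hj, F1.lo j (by omega)]
  have hhi2 : ∀ j, p < j → j ≤ n → ht x p < ht x2 j := fun j a1 a2 => by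
    have := F2.hi j a1; have := hy1 j a1 a2; omega
  have hpos2 : ∀ j, j ≤ n → 0 ≤ ht x2 j := by
    intro j hj
    rcases le_or_gt j p with h | h
    · rw [hlo2 j h]; exact hpos j hj
    · have := hhi2 j h hj; omega
  have h2 : C x2 ↔ C y1 := by
    refine hC x2 y1 p F2 ⟨hpn, fun j a1 a2 => ?_, fun j hj => ?_⟩ ?_ ?_
    · rw [hlo2 p le_rfl]; exact hhi2 j a1 a2
    · rw [hlo2 p le_rfl]; have := hpos2 j hj; have := F2.vx.2; omega
    · left; exact ⟨a, ha2, by omega⟩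
    · left; exact ⟨a, ha1, by omega⟩
  obtain ⟨y3, F3, ha3, hpos3, h3⟩ := close_step hm hC F2.vx hpos2 ha2 (by
    intro j a1 a2
    rcases le_or_gt j p with h | h
    · rw [hlo2 j h]; have := hp.2.1 j (by omega) h; omega
    · have := hhi2 j h a2; omega) (by
    have := hhi2 (2 * a + 4) (by omega) (by omega); omega)
  have hy3 : ∀ j, p < j → ht y3 j = ht y1 j := fun j hj => by
    have := F3.hi j (by omega); have := F2.hi j hj; omega
  obtain ⟨x4, F4⟩ := flip_up F3.vy hbn (by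
    rw [hy3 _ (by omega), hy3 _ (by omega), F1.lo b le_rfl, F1.hi _ (by omega)]
    have := ht_step x b; omega)
  have hx4 : ∀ j, p < j → ht x4 j = ht x j := fun j hj => by
    have := hy3 j hj
    rcases le_or_gt j b with h | h
    · have := F4.lo j h; have := F1.lo j h; omega
    · have := F4.hi j h; have := F1.hi j h; omega
  have hpos4 : ∀ j, j ≤ n → 0 ≤ ht x4 j := by
    intro j hj
    have := hpos3 j hj
    rcases le_or_gt j b with h | h
    · have := F4.lo j h; omega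
    · have := F4.hi j h; omega
  have z4 : Zip n (ht x4) 0 u3 u4 u5 b :=
    ⟨floor_zero hpos4, z.l3.congr fun j hj => hx4 j (by omega),
      z.l4.congr fun j hj => hx4 j (by omega), z.l5.congr fun j hj => hx4 j (by omega), z.ch⟩
  have h4' := zip_step hm hC z4 F4
  have hC4 : C x4 := IH x4 F4.vx hpos4 fun i hi => by
    rw [← F4.lo _ (by omega)]; exact ha3.1 i hi
  exact h1.2 (h2.1 (h3.2 (h4'.1 hC4)))

lemma caseB (hm : 3 ≤ m) (hC : Inv n m C) {a : ℕ} {x : Finset ℕ}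
    (hx : Val n (m + 2) x) (hpos : ∀ j, j ≤ n → 0 ≤ ht x j) (ha : IsAlpha (ht x) a) {p : ℕ}
    (hp : IsPhi (ht x) a p) {j0 : ℕ} (h1 : p < j0) (h2 : j0 ≤ n) (h3 : ht x j0 + 2 ≤ ht x p)
    {j1 : ℕ} (k1 : p < j1) (k2 : j1 ≤ n) (k3 : ht x j1 ≤ 1) {U : ℤ}
    (hU : ∀ j, p < j → j ≤ n → U ≤ ht x j) :
    ∃ x', Val n (m + 2) x' ∧ (∀ j, j ≤ n → 0 ≤ ht x' j) ∧ IsAlpha (ht x') a ∧
      IsPhi (ht x') a p ∧ (∀ j, p < j → j ≤ n → U + 1 ≤ ht x' j) ∧ (C x ↔ C x') := by
  have hroom := room ha.1 (by omega) hx.2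
  have hp2 := phi_ge hpos (by omega) ha hp
  obtain ⟨u3, u4, u5, b, z⟩ := exists_zip (ht x) (floor_zero hpos)
  obtain ⟨h34, h45, h5n, h3b, hbn, hup, hge⟩ := z.facts hm hx
  have hj3 : j1 ≤ u3 := by
    by_contra hc
    have := z.l3.2.2 j1 (by omega) k2
    omega
  obtain ⟨y, F⟩ := flip_down hx hbn hup.le
  have hxy := zip_step hm hC z F
  have hfy := zip_floor hm z F
  have hay : IsAlpha (ht y) a := ha.congr fun j hj => F.lo j (by omega)
  have hpy : IsPhi (ht y) a p := hp.congr fun j hj => F.lo j (by omega)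
  have hU1 := hU j1 k1 k2
  obtain ⟨x', hx', hpos', ha', hp', hU', hx'y⟩ := open_step hm hC F.vy hfy.1 hay hpy h1 h2 (by
    rw [F.lo p (by omega)]
    rcases le_or_gt j0 b with h | h
    · rw [F.lo _ h]; exact h3
    · rw [F.hi _ h]; omega)
  refine ⟨x', hx', hpos', ha', hp', hU' U fun j a1 a2 => ?_, hxy.trans hx'y.symm⟩
  rcases le_or_gt j b with h | h
  · rw [F.lo _ h]; exact hU j a1 a2
  · rw [F.hi _ h]; have := hge j h a2; omega

/-- the root word -/
def IsRoot (n : ℕ) (x : Finset ℕ) : Prop := ∃ a, IsAlpha (ht x) a ∧ IsPhi (ht x) a n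

lemma level_step (hm : 3 ≤ m) (hC : Inv n m C)
    (hR : ∀ x, Val n (m + 2) x → (∀ j, j ≤ n → 0 ≤ ht x j) → IsRoot n x → C x) {a : ℕ}
    (IH : Done n m C (a + 1)) (p : ℕ) : ∀ x, Val n (m + 2) x → (∀ j, j ≤ n → 0 ≤ ht x j) →
      IsAlpha (ht x) a → IsPhi (ht x) a p → p ≤ n → C x := by
  induction p using Nat.strong_induction_on with
  | _ p ih =>
  have flat : ∀ x, Val n (m + 2) x → (∀ j, j ≤ n → 0 ≤ ht x j) → IsAlpha (ht x) a →
      IsPhi (ht x) a p → p < n → (∀ j, p < j → j ≤ n → ht x p ≤ ht x j + 1) → C x := by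
    intro x hx hpos ha hp hpn hu
    rcases le_or_gt p (2 * a + 3) with h | h
    · exact caseD hm hC IH hx hpos ha hp hpn h hu
    · obtain ⟨q, rfl⟩ : ∃ q, p = q + 2 := ⟨p - 2, by omega⟩
      obtain ⟨x', hx', hpos', ha', hp', h'⟩ := caseC hm hC hx hpos ha hp hpn (by omega) hu
      exact h'.2 (ih q (by omega) x' hx' hpos' ha' hp' (by omega))
  have up : ∀ d : ℕ, ∀ x, Val n (m + 2) x → (∀ j, j ≤ n → 0 ≤ ht x j) → IsAlpha (ht x) a →
      IsPhi (ht x) a p → p < n → (∀ j, p < j → j ≤ n → 2 - (d : ℤ) ≤ ht x j) → C x := by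
    intro d
    induction d with
    | zero =>
      intro x hx hpos ha hp hpn hu
      by_cases hf : ∀ j, p < j → j ≤ n → ht x p ≤ ht x j + 1
      · exact flat x hx hpos ha hp hpn hf
      · push Not at hf
        obtain ⟨j0, h1, h2, h3⟩ := hf
        exact caseA hm hC IH hx hpos ha hp h1 h2 (by omega) (by simpa using hu)
    | succ d ihd =>
      intro x hx hpos ha hp hpn hu
      by_cases hf : ∀ j, p < j → j ≤ n → ht x p ≤ ht x j + 1
      · exact flat x hx hpos ha hp hpn hf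
      push Not at hf
      obtain ⟨j0, h1, h2, h3⟩ := hf
      by_cases h2' : ∀ j, p < j → j ≤ n → 2 ≤ ht x j
      · exact caseA hm hC IH hx hpos ha hp h1 h2 (by omega) h2'
      push Not at h2'
      obtain ⟨j1, k1, k2, k3⟩ := h2'
      obtain ⟨x', hx', hpos', ha', hp', hU', h'⟩ :=
        caseB hm hC hx hpos ha hp h1 h2 (by omega) k1 k2 (by omega) hu
      refine h'.2 (ihd x' hx' hpos' ha' hp' hpn fun j a1 a2 => ?_)
      have := hU' j a1 a2
      push_cast at this; omega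
  intro x hx hpos ha hp hpn
  rcases hpn.lt_or_eq with h | h
  · exact up 2 x hx hpos ha hp h fun j _ a2 => by have := hpos j a2; push_cast; omega
  · subst h; exact hR x hx hpos ⟨a, ha, hp⟩

lemma done_all (hm : 3 ≤ m) (hC : Inv n m C)
    (hR : ∀ x, Val n (m + 2) x → (∀ j, j ≤ n → 0 ≤ ht x j) → IsRoot n x → C x) (d : ℕ) :
    ∀ a, n ≤ a + d → Done n m C a := by
  induction d with
  | zero =>
    intro a h x hx _ ha
    have := room ha (by omega) hx.2
    omega
  | succ d ih =>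
    intro a h x hx hpos ha
    have IH := ih (a + 1) (by omega)
    by_cases h2 : ht x (2 * a + 2) = 0
    · refine IH x hx hpos fun i hi => ?_
      rcases hi.lt_or_eq with h | h
      · exact ha i (by omega)
      · subst h; exact h2
    · have hroom := room ha (by omega) hx.2
      obtain ⟨p, hpn, hp⟩ := exists_isPhi hx.1 (ha a le_rfl) (by omega)
      exact level_step hm hC hR IH p x hx hpos ⟨ha, h2⟩ hp hpn

lemma upper_all (hm : 3 ≤ m) (hC : Inv n m C)
    (hR : ∀ x, Val n (m + 2) x → (∀ j, j ≤ n → 0 ≤ ht x j) → IsRoot n x → C x) (d : ℕ) :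
    ∀ x, Val n (m + 2) x → IsFloor n (ht x) (-(d : ℤ)) → C x := by
  induction d with
  | zero =>
    intro x hx hf
    refine done_all hm hC hR n 0 (by omega) x hx (by simpa using hf.1) fun i hi => ?_
    have : i = 0 := by omega
    subst this; rfl
  | succ d ih =>
    intro x hx hf
    obtain ⟨u3, u4, u5, b, z⟩ := exists_zip (ht x) hf
    obtain ⟨h34, h45, h5n, h3b, hbn, hup, hge⟩ := z.facts hm hx
    obtain ⟨y, F⟩ := flip_down hx hbn hup.le
    obtain ⟨x', hx', hf', h'⟩ := mu_step hm hC F.vy (zip_floor hm z F) (by push_cast; omega)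
    refine (zip_step hm hC z F).2 (h'.1 (ih x' hx' ?_))
    have : (-((d + 1 : ℕ) : ℤ) + 1) = -(d : ℤ) := by push_cast; ring
    rwa [this] at hf'

theorem upper_conn (hm : 3 ≤ m) (hC : Inv n m C)
    (hR : ∀ x, Val n (m + 2) x → (∀ j, j ≤ n → 0 ≤ ht x j) → IsRoot n x → C x) :
    ∀ x, Val n (m + 2) x → C x := by
  intro x hx
  obtain ⟨f, hf⟩ := exists_isFloor n (ht x)
  have := hf.nonpos
  refine upper_all hm hC hR f.natAbs x hx ?_
  have e : -((f.natAbs : ℕ) : ℤ) = f := by omega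
  rwa [e]

theorem lower_conn (hm : 3 ≤ m) (hC : Inv n m C)
    (hR : ∀ x, Val n (m + 2) x → (∀ j, j ≤ n → 0 ≤ ht x j) → IsRoot n x → C x) :
    ∀ y, Val n m y → ¬ (∀ j, j ≤ n → 0 ≤ ht y j) → C y := by
  intro y hy hneg
  obtain ⟨f, hf⟩ := exists_isFloor n (ht y)
  have : f < 0 := by
    by_contra hc
    exact hneg fun j hj => by have := hf.1 j hj; omega
  obtain ⟨x, hx, -, h⟩ := mu_step hm hC hy hf this
  exact h.1 (upper_conn hm hC hR x hx)

lemma root_unique (hm : 3 ≤ m) {x x' : Finset ℕ} (hx : Val n (m + 2) x) (hx' : Val n (m + 2) x')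
    (hpos : ∀ j, j ≤ n → 0 ≤ ht x j) (hpos' : ∀ j, j ≤ n → 0 ≤ ht x' j)
    (h : IsRoot n x) (h' : IsRoot n x') : x = x' := by
  obtain ⟨a, ha, hp⟩ := h
  obtain ⟨a', ha', hp'⟩ := h'
  have e1 := hp.2.1 n hp.1 le_rfl
  have e2 := hp'.2.1 n hp'.1 le_rfl
  have e3 := hx.2
  have e4 := hx'.2
  have : a = a' := by omega
  subst this
  refine eq_of_ht hx.1 hx'.1 fun j hj => ?_
  rcases le_or_gt (2 * a) j with h | h
  · rw [hp.2.1 j h hj, hp'.2.1 j h hj]
  · rcases Nat.even_or_odd' j with ⟨i, rfl | rfl⟩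
    · rw [ha.1 i (by omega), ha'.1 i (by omega)]
    · have := ha.1 i (by omega); have := ha'.1 i (by omega)
      have := ht_step x (2 * i); have := ht_step x' (2 * i)
      have := hpos _ hj; have := hpos' _ hj
      omega

end Pool.Agent.Lib.MP_ec2aec_co
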