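import Mathlib

set_option autoImplicit false

namespace Pool.Agent.Lib.MP_ec2aec_co

open Finset

/-- `i` is matched in the bracket word of `x ⊆ [n]`. -/
def Matched (n : ℕ) (x : Finset ℕ) (i : ℕ) : Prop :=
  (i ∈ x ∧ ∃ j, i < j ∧ j ≤ n ∧ (x ∩ Icc i j).card = (Icc i j \ x).card) ∨
  (i ∉ x ∧ ∃ j, 1 ≤ j ∧ j < i ∧ (x ∩ Icc j i).card = (Icc j i \ x).card)

open Classical in
/-- the matched elements of `x` -/
noncomputable def Mplus (n : ℕ) (x : Finset ℕ) : Finset ℕ := x.filter (Matched n x)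

open Classical in
/-- the unmatched elements of `[n]` -/
noncomputable def Unm (n : ℕ) (x : Finset ℕ) : Finset ℕ :=
  (Icc 1 n).filter fun i => ¬ Matched n x i

/-- the chain through `x`: the matched elements together with the unmatched elements of rank
greater than `s` -/
def Chain (n : ℕ) (x : Finset ℕ) : Set (Finset ℕ) :=
  {z | ∃ s, s ≤ (Unm n x).card ∧
    z = Mplus n x ∪ (Unm n x).filter fun u => s < ((Unm n x).filter fun v => v ≤ u).card}

/-- the member of the chain through `x` of complementary size -/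
noncomputable def pmap (n : ℕ) (x : Finset ℕ) : Finset ℕ :=
  Classical.epsilon fun z => z ∈ Chain n x ∧ x.card + z.card = n

/-- the order `y ≺ x` -/
def Prec (n : ℕ) (y x : Finset ℕ) : Prop :=
  y ≠ x ∧ pmap n x ⊆ pmap n y ∧ pmap n y ⊆ y ∧ y ⊆ x

/-- the bipartite graph `G_{n,k}` on the `k`-subsets and `(k+1)`-subsets of `[n]` -/
def G (n k : ℕ) : SimpleGraph {x : Finset ℕ // x ⊆ Icc 1 n ∧ (x.card = k ∨ x.card = k + 1)} :=
  SimpleGraph.fromRel fun y x => y.1.card = k ∧ x.1.card = k + 1 ∧ Prec n y.1 x.1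

end Pool.Agent.Lib.MP_ec2aec_co
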