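import Pool.Agent.Lib.MP_ec2aec_co.Conn

set_option autoImplicit false

namespace Pool.Agent.Lib.MP_ec2aec_co

open Finset

variable {n : ℕ} {m : ℤ}

open Classical in
lemma card_unmatched {y : Finset ℕ} (hy : Val n m y) (hpos : ∀ j, j ≤ n → 0 ≤ ht y j) :
    ((range n).filter fun p => ∀ j, p < j → j ≤ n → ht y p < ht y j).card ≤ m.toNat := by
  have : ((range n).filter fun p => ∀ j, p < j → j ≤ n → ht y p < ht y j).card ≤
      (range m.toNat).card := by
    refine card_le_card_of_injOn (fun p => (ht y p).toNat) ?_ ?_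
    · intro p hp
      obtain ⟨h1, h2⟩ := mem_filter.1 (mem_coe.1 hp)
      have h1 := mem_range.1 h1
      have := h2 n h1 le_rfl
      have := hpos p h1.le
      have := hy.2
      simp only [coe_range, Set.mem_Iio]; omega
    · intro p hp q hq e
      obtain ⟨h1, h2⟩ := mem_filter.1 (mem_coe.1 hp)
      obtain ⟨k1, k2⟩ := mem_filter.1 (mem_coe.1 hq)
      have h1 := mem_range.1 h1
      have k1 := mem_range.1 k1
      have := hpos p h1.le
      have := hpos q k1.le
      simp only at e
      rcases lt_trichotomy p q with h | h | h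
      · have := h2 q h k1.le; omega
      · exact h
      · have := k2 p h h1.le; omega
  simpa using this

lemma exists_open {y : Finset ℕ} (hy : Val n m y) (hpos : ∀ j, j ≤ n → 0 ≤ ht y j) {p : ℕ}
    (hp : p < n) (hm : ¬ ∀ j, p < j → j ≤ n → ht y p < ht y j) :
    ∃ x b, Flip n m x y b ∧ Edge n x b ∧ p ≤ b ∧ ∀ j, p < j → j ≤ b → ht x b ≤ ht x j := by
  push Not at hm
  obtain ⟨j0, h1, h2, h3⟩ := hm
  obtain ⟨b, hb0, hb, hb1, hb2⟩ := exists_firstMin n (ht y) hp
  have hv := hb1 j0 h1 h2
  have hbb : ht y b = ht y (b + 1) + 1 := by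
    have := ht_step y b
    rcases hb0.lt_or_eq with h | h
    · have := hb2 b h le_rfl; omega
    · subst h; omega
  obtain ⟨x, F⟩ := flip_up hy hb (by omega)
  have hxb := F.lo b le_rfl
  refine ⟨x, b, F, ⟨hb, fun j a1 a2 => ?_, fun j hj => ?_⟩, hb0, fun j a1 a2 => ?_⟩
  · have := F.hi j a1; have := hb1 j (by omega) a2; omega
  · have := hpos j hj; have := F.vx.2; have := hy.2; have := hb1 n hp le_rfl
    rcases le_or_gt j b with h | h
    · have := F.lo j h; omega
    · have := F.hi j h; omega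
  · have := F.lo j a2; have := hb2 j a1 a2; omega

theorem hall (hm : 0 ≤ m) (hn : 3 * m ≤ n) (hn0 : 0 < n) :
    ∃ η : Finset ℕ → Finset ℕ,
      (∀ y, Val n m y → (∀ j, j ≤ n → 0 ≤ ht y j) → ∃ b, Flip n m (η y) y b ∧ Edge n (η y) b) ∧
      ∀ (x : Finset ℕ) (s : Finset (Finset ℕ)),
        (∀ y ∈ s, Val n m y ∧ (∀ j, j ≤ n → 0 ≤ ht y j) ∧ η y = x) → s.card ≤ 3 := by
  classical
  let ι := {y : Finset ℕ // Val n m y ∧ ∀ j, j ≤ n → 0 ≤ ht y j}
  let Nb : ι → Finset (Finset ℕ) := fun y =>
    (powerset (Icc 1 n)).filter fun x => ∃ b, Flip n m x y.1 b ∧ Edge n x b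
  let t : ι → Finset (Finset ℕ × ℕ) := fun y => Nb y ×ˢ range 3
  have hH : ∀ s : Finset ι, s.card ≤ (s.biUnion t).card := by
    intro s
    have e1 : s.biUnion t = (s.biUnion Nb) ×ˢ range 3 := by
      ext ⟨x, i⟩
      simp only [t, mem_biUnion, mem_product]
      tauto
    let r : ι → Finset ℕ × ℕ → Prop := fun y q => ∃ b, Flip n m q.1 y.1 b ∧ Edge n q.1 b ∧
      q.2 ≤ b ∧ ∀ j, q.2 < j → j ≤ b → ht q.1 b ≤ ht q.1 j
    have key : s.card * (n - m.toNat) ≤ ((s.biUnion Nb) ×ˢ range n).card * 2 := by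
      refine card_mul_le_card_mul r ?_ ?_
      · intro y hy
        have h1 := card_unmatched y.2.1 y.2.2
        have h2 := card_filter_add_card_filter_not (s := range n)
          (fun p => ∀ j, p < j → j ≤ n → ht y.1 p < ht y.1 j)
        rw [card_range] at h2
        have h3 : ((range n).filter fun p => ¬ ∀ j, p < j → j ≤ n → ht y.1 p < ht y.1 j) ⊆
            (((s.biUnion Nb) ×ˢ range n).bipartiteAbove r y).image Prod.snd := by
          intro p hp
          obtain ⟨k1, k2⟩ := mem_filter.1 hp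
          obtain ⟨x, b, F, E, k3, k4⟩ := exists_open y.2.1 y.2.2 (mem_range.1 k1) k2
          refine mem_image.2 ⟨(x, p), (mem_bipartiteAbove _).2 ⟨mem_product.2 ⟨mem_biUnion.2
            ⟨y, hy, mem_filter.2 ⟨mem_powerset.2 F.vx.1, b, F, E⟩⟩, k1⟩, b, F, E, k3, k4⟩, rfl⟩
        have h4 := (card_le_card h3).trans card_image_le
        have h5 : ((range n).filter fun p => ∀ j, p < j → j ≤ n → ht y.1 p < ht y.1 j).card ≤
          m.toNat := by convert h1
        omega
      · rintro ⟨x, p⟩ _
        have hb : ∀ y ∈ s.bipartiteBelow r (x, p), ∃ b, Flip n m x y.1 b ∧ Edge n x b ∧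
            p ≤ b ∧ ∀ j, p < j → j ≤ b → ht x b ≤ ht x j :=
          fun y hy => ((mem_bipartiteBelow _).1 hy).2
        choose! bb hbb using hb
        have : (s.bipartiteBelow r (x, p)).card ≤ (univ : Finset Bool).card := by
          refine card_le_card_of_injOn (fun y => decide (bb y = p)) (fun _ _ => mem_coe.2 (mem_univ _)) ?_
          intro y hy y' hy' e
          obtain ⟨F, E, k1, k2⟩ := hbb y hy
          obtain ⟨F', E', k1', k2'⟩ := hbb y' hy'
          have e' : bb y = p ↔ bb y' = p := by simpa using e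
          have : bb y = bb y' := by
            rcases lt_trichotomy (bb y) (bb y') with h | h | h
            · have := E.2.1 _ h F'.lt.le; have := k2' (bb y) (by omega) h.le; omega
            · exact h
            · have := E'.2.1 _ h F.lt.le; have := k2 (bb y') (by omega) h.le; omega
          apply Subtype.ext
          rw [F.eq, F'.eq, this]
        simpa using this
    rw [e1, card_product, card_range]
    rw [card_product, card_range] at key
    have h3 : 2 * n ≤ 3 * (n - m.toNat) := by omega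
    have h4 : s.card * (2 * n) ≤ (s.biUnion Nb).card * 3 * (2 * n) := by
      calc s.card * (2 * n) ≤ s.card * (3 * (n - m.toNat)) := Nat.mul_le_mul_left _ h3
        _ = 3 * (s.card * (n - m.toNat)) := by ring
        _ ≤ 3 * ((s.biUnion Nb).card * n * 2) := Nat.mul_le_mul_left _ key
        _ = (s.biUnion Nb).card * 3 * (2 * n) := by ring
    exact Nat.le_of_mul_le_mul_right h4 (by omega)
  obtain ⟨f, hf1, hf2⟩ := (all_card_le_biUnion_card_iff_exists_injective t).1 hH
  refine ⟨fun y => if h : Val n m y ∧ ∀ j, j ≤ n → 0 ≤ ht y j then (f ⟨y, h⟩).1 else ∅, ?_, ?_⟩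
  · intro y h1 h2
    simp only [dif_pos (And.intro h1 h2)]
    exact (mem_filter.1 (mem_product.1 (hf2 ⟨y, h1, h2⟩)).1).2
  · intro x s hs
    have : s.card ≤ (range 3).card := by
      refine card_le_card_of_injOn
        (fun y => if h : Val n m y ∧ ∀ j, j ≤ n → 0 ≤ ht y j then (f ⟨y, h⟩).2 else 0) ?_ ?_
      · intro y hy
        obtain ⟨h1, h2, -⟩ := hs y hy
        simp only [dif_pos (And.intro h1 h2)]
        exact (mem_product.1 (hf2 ⟨y, h1, h2⟩)).2
      · intro y hy y' hy' e
        obtain ⟨h1, h2, h3⟩ := hs y hy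
        obtain ⟨k1, k2, k3⟩ := hs y' hy'
        simp only [dif_pos (And.intro h1 h2), dif_pos (And.intro k1 k2)] at e h3 k3
        have : f ⟨y, h1, h2⟩ = f ⟨y', k1, k2⟩ := Prod.ext (h3.trans k3.symm) e
        exact congrArg Subtype.val (hf1 this)
    simpa using this

end Pool.Agent.Lib.MP_ec2aec_co
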