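import Mathlib

set_option autoImplicit false

namespace Pool.Agent.Lib.MP_ec2aec_co

open Finset

/-- Height of the bracket word of `x` after `j` letters. -/
def ht (x : Finset ℕ) : ℕ → ℤ
  | 0 => 0
  | j + 1 => ht x j + (if j + 1 ∈ x then 1 else -1)

@[simp] lemma ht_zero (x : Finset ℕ) : ht x 0 = 0 := rfl

lemma ht_succ (x : Finset ℕ) (j : ℕ) :
    ht x (j + 1) = ht x j + (if j + 1 ∈ x then 1 else -1) := rfl

lemma ht_up {x : Finset ℕ} {j : ℕ} (h : j + 1 ∈ x) : ht x (j + 1) = ht x j + 1 := by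
  rw [ht_succ, if_pos h]

lemma ht_down {x : Finset ℕ} {j : ℕ} (h : j + 1 ∉ x) : ht x (j + 1) = ht x j - 1 := by
  rw [ht_succ, if_neg h]; ring

lemma ht_step (x : Finset ℕ) (j : ℕ) : ht x (j + 1) = ht x j + 1 ∨ ht x (j + 1) = ht x j - 1 := by
  by_cases h : j + 1 ∈ x
  · exact Or.inl (ht_up h)
  · exact Or.inr (ht_down h)

lemma mem_of_lt {x : Finset ℕ} {j : ℕ} (h : ht x j ≤ ht x (j + 1)) : j + 1 ∈ x := by
  by_contra hn
  have := ht_down hn
  omega

lemma notMem_of_lt {x : Finset ℕ} {j : ℕ} (h : ht x (j + 1) ≤ ht x j) : j + 1 ∉ x := by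
  intro hn
  have := ht_up hn
  omega

lemma ht_erase {x : Finset ℕ} {b : ℕ} (hb : b + 1 ∈ x) (j : ℕ) :
    ht (x.erase (b + 1)) j = if j ≤ b then ht x j else ht x j - 2 := by
  induction j with
  | zero => simp
  | succ j ih =>
    rw [ht_succ, ih, ht_succ]
    by_cases h1 : j = b
    · subst h1
      simp [hb]; ring
    · have : (j + 1 ∈ x.erase (b + 1)) ↔ j + 1 ∈ x := by
        simp [h1]
      simp only [this]
      split_ifs <;> omega

lemma ht_add_le (x : Finset ℕ) (i d : ℕ) : ht x (i + d) ≤ ht x i + d := by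
  induction d with
  | zero => simp
  | succ d ih =>
    have := ht_step x (i + d)
    rw [← add_assoc]
    push_cast
    omega

lemma ht_card_Ioc (x : Finset ℕ) (i d : ℕ) :
    ht x (i + d) = ht x i + ((x ∩ Ioc i (i + d)).card : ℤ) - ((Ioc i (i + d) \ x).card : ℤ) := by
  induction d with
  | zero => simp
  | succ d ih =>
    have hI : Ioc i (i + (d + 1)) = insert (i + d + 1) (Ioc i (i + d)) := by
      ext a; simp only [mem_Ioc, mem_insert]; omega
    have hn : i + d + 1 ∉ Ioc i (i + d) := by simp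
    rw [hI, ← add_assoc]
    by_cases h : i + d + 1 ∈ x
    · rw [ht_up h, ih, inter_insert_of_mem h, insert_sdiff_of_mem _ h,
        card_insert_of_notMem (fun hm => hn (mem_inter.1 hm).2)]
      push_cast; ring
    · rw [ht_down h, ih, inter_insert_of_notMem h, insert_sdiff_of_notMem _ h,
        card_insert_of_notMem (fun hm => hn (mem_sdiff.1 hm).1)]
      push_cast; ring

lemma ht_total {x : Finset ℕ} {n : ℕ} (hx : x ⊆ Icc 1 n) : ht x n = 2 * (x.card : ℤ) - n := by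
  have h := ht_card_Ioc x 0 n
  have hI : Ioc 0 n = Icc 1 n := by ext a; simp only [mem_Ioc, mem_Icc]; omega
  simp only [zero_add, ht_zero, hI] at h
  rw [inter_eq_left.2 hx, card_sdiff_of_subset hx] at h
  have h2 : x.card ≤ n := by simpa using card_le_card hx
  rw [h, Nat.cast_sub (by simpa using h2)]
  simp; ring

lemma eq_of_ht {x y : Finset ℕ} {n : ℕ} (hx : x ⊆ Icc 1 n) (hy : y ⊆ Icc 1 n)
    (h : ∀ j, j ≤ n → ht x j = ht y j) : x = y := by
  ext a
  constructor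
  · intro ha
    have := mem_Icc.1 (hx ha)
    obtain ⟨b, rfl⟩ : ∃ b, a = b + 1 := ⟨a - 1, by omega⟩
    have h1 := ht_up ha
    apply mem_of_lt
    rw [← h _ this.2, ← h b (by omega)]; omega
  · intro ha
    have := mem_Icc.1 (hy ha)
    obtain ⟨b, rfl⟩ : ∃ b, a = b + 1 := ⟨a - 1, by omega⟩
    have h1 := ht_up ha
    apply mem_of_lt
    rw [h _ this.2, h b (by omega)]; omega

/-- `b` is the last position of height at most `l`. -/
def IsLast (n : ℕ) (g : ℕ → ℤ) (l : ℤ) (b : ℕ) : Prop :=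
  b ≤ n ∧ g b ≤ l ∧ ∀ j, b < j → j ≤ n → l < g j

/-- `f` is the minimum height. -/
def IsFloor (n : ℕ) (g : ℕ → ℤ) (f : ℤ) : Prop :=
  (∀ j, j ≤ n → f ≤ g j) ∧ ∃ j, j ≤ n ∧ g j = f

/-- `a` is the number of initial flat blocks. -/
def IsAlpha (g : ℕ → ℤ) (a : ℕ) : Prop := (∀ i, i ≤ a → g (2 * i) = 0) ∧ g (2 * a + 2) ≠ 0

/-- `p` is the position of the first down step after the flat part. -/
def IsPhi (g : ℕ → ℤ) (a p : ℕ) : Prop :=
  2 * a ≤ p ∧ (∀ j, 2 * a ≤ j → j ≤ p → g j = (j : ℤ) - 2 * a) ∧ g (p + 1) < g p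

lemma IsLast.unique {n : ℕ} {g : ℕ → ℤ} {l : ℤ} {b c : ℕ} (h1 : IsLast n g l b)
    (h2 : IsLast n g l c) : b = c := by
  rcases lt_trichotomy b c with h | h | h
  · have := h1.2.2 c h h2.1; have := h2.2.1; omega
  · exact h
  · have := h2.2.2 b h h1.1; have := h1.2.1; omega

lemma IsFloor.unique {n : ℕ} {g : ℕ → ℤ} {f f' : ℤ} (h1 : IsFloor n g f)
    (h2 : IsFloor n g f') : f = f' := by
  obtain ⟨j, hj, e⟩ := h1.2
  obtain ⟨j', hj', e'⟩ := h2.2
  have := h1.1 j' hj'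
  have := h2.1 j hj
  omega

lemma IsAlpha.unique {g : ℕ → ℤ} {a a' : ℕ} (h1 : IsAlpha g a) (h2 : IsAlpha g a') : a = a' := by
  rcases lt_trichotomy a a' with h | h | h
  · exact absurd (h2.1 (a + 1) h) h1.2
  · exact h
  · exact absurd (h1.1 (a' + 1) h) h2.2

lemma IsPhi.unique {g : ℕ → ℤ} {a p p' : ℕ} (h1 : IsPhi g a p) (h2 : IsPhi g a p') : p = p' := by
  rcases lt_trichotomy p p' with h | h | h
  · have e1 := h2.2.1 (p + 1) (by have := h1.1; omega) h
    have e2 := h2.2.1 p h1.1 h.le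
    have := h1.2.2
    push_cast at e1; omega
  · exact h
  · have e1 := h1.2.1 (p' + 1) (by have := h2.1; omega) h
    have e2 := h1.2.1 p' h2.1 h.le
    have := h2.2.2
    push_cast at e1; omega

lemma exists_isLast (n : ℕ) (g : ℕ → ℤ) (l : ℤ) {j : ℕ} (hj : j ≤ n) (hl : g j ≤ l) :
    ∃ b, j ≤ b ∧ IsLast n g l b := by
  classical
  refine ⟨Nat.findGreatest (fun i => g i ≤ l) n, Nat.le_findGreatest hj hl,
    Nat.findGreatest_le n, Nat.findGreatest_spec (P := fun i => g i ≤ l) hj hl, ?_⟩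
  intro i h1 h2
  exact lt_of_not_ge (Nat.findGreatest_is_greatest (P := fun i => g i ≤ l) h1 h2)

/-- First position in `(p, n]` where the minimum over `(p, n]` is attained. -/
lemma exists_firstMin (n : ℕ) (g : ℕ → ℤ) {p : ℕ} (hp : p < n) :
    ∃ b, p ≤ b ∧ b < n ∧ (∀ j, p < j → j ≤ n → g (b + 1) ≤ g j) ∧
      ∀ j, p < j → j ≤ b → g (b + 1) < g j := by
  classical
  obtain ⟨q, hq, hmin⟩ := (Ioc p n).exists_min_image g ⟨n, by simp [hp]⟩
  have hex : ∃ b, p ≤ b ∧ b < n ∧ g (b + 1) = g q := by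
    have := mem_Ioc.1 hq
    refine ⟨q - 1, by omega, by omega, ?_⟩
    congr 1; omega
  obtain ⟨h1, h2, h3⟩ := Nat.find_spec hex
  refine ⟨Nat.find hex, h1, h2, fun j a b => by rw [h3]; exact hmin j (mem_Ioc.2 ⟨a, b⟩), ?_⟩
  intro j a b
  rw [h3]
  have hle := hmin j (mem_Ioc.2 ⟨a, by omega⟩)
  rcases hle.lt_or_eq with h | h
  · exact h
  · exfalso
    have := Nat.find_min hex (m := j - 1) (by omega)
    apply this
    refine ⟨by omega, by omega, ?_⟩
    rw [h]; congr 1; omega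

lemma exists_isFloor (n : ℕ) (g : ℕ → ℤ) : ∃ f, IsFloor n g f := by
  obtain ⟨q, hq, hmin⟩ := (range (n + 1)).exists_min_image g ⟨0, by simp⟩
  exact ⟨g q, fun j hj => hmin j (mem_range.2 (by omega)), q, by simpa [Nat.lt_succ_iff] using hq, rfl⟩

lemma exists_isPhi {x : Finset ℕ} {n a : ℕ} (hx : x ⊆ Icc 1 n) (ha : ht x (2 * a) = 0)
    (han : 2 * a ≤ n) : ∃ p, p ≤ n ∧ IsPhi (ht x) a p := by
  classical
  have hex : ∃ p, 2 * a ≤ p ∧ p + 1 ∉ x := ⟨n, han, fun h => by have := mem_Icc.1 (hx h); omega⟩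
  obtain ⟨h1, h2⟩ := Nat.find_spec hex
  refine ⟨Nat.find hex, Nat.find_min' hex ⟨han, fun h => by have := mem_Icc.1 (hx h); omega⟩,
    h1, ?_, by rw [ht_down h2]; omega⟩
  intro j hj1 hj2
  induction j, hj1 using Nat.le_induction with
  | base => rw [ha]; push_cast; ring
  | succ j hj ih =>
    have hm : j + 1 ∈ x := by
      by_contra hc
      exact Nat.find_min hex (m := j) (by omega) ⟨hj, hc⟩
    rw [ht_up hm, ih (by omega)]; push_cast; ring

/-- Doubling sets are logarithmically small. -/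
lemma card_le_log (Z : Finset ℕ) (n : ℕ) (d : ℕ → ℕ) (hd : ∀ b ∈ Z, 1 ≤ d b ∧ d b ≤ n)
    (h : ∀ b ∈ Z, ∀ c ∈ Z, b ≠ c → 2 * d b ≤ d c ∨ 2 * d c ≤ d b) :
    Z.card ≤ Nat.log 2 n + 1 := by
  have : Z.card ≤ (range (Nat.log 2 n + 1)).card := by
    refine card_le_card_of_injOn (fun b => Nat.log 2 (d b)) ?_ ?_
    · intro b hb
      have := Nat.log_mono_right (b := 2) (hd b hb).2
      simp only [coe_range, Set.mem_Iio]; omega
    · intro b hb c hc he
      by_contra hne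
      have key : ∀ u v : ℕ, 1 ≤ u → 2 * u ≤ v → Nat.log 2 u < Nat.log 2 v := by
        intro u v hu huv
        have h1 := Nat.log_mono_right (b := 2) huv
        rw [mul_comm, Nat.log_mul_base (by norm_num) (by omega)] at h1
        omega
      simp only at he
      rcases h b hb c hc hne with h1 | h1
      · have := key _ _ (hd b hb).1 h1; omega
      · have := key _ _ (hd c hc).1 h1; omega
  simpa using this

end Pool.Agent.Lib.MP_ec2aec_co
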