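import Pool.Agent.Lib.MP_ec2aec_co.Bridge
import Pool.Agent.Lib.MP_ec2aec_co.Conn2
import Pool.Agent.Lib.MP_ec2aec_co.Hall

set_option autoImplicit false

namespace Pool.Agent.Lib.MP_ec2aec_co

open Finset

theorem finite_main (n k : ℕ) (h1 : n + 3 ≤ 2 * k) (h2 : 3 * k ≤ 2 * n) :
    ∃ T : SimpleGraph {x : Finset ℕ // x ⊆ Icc 1 n ∧ (x.card = k ∨ x.card = k + 1)},
      T ≤ G n k ∧ T.IsTree ∧ ∀ v, (T.neighborSet v).encard ≤ (2 * Nat.log 2 n + 18 : ℕ) := by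
  classical
  set m : ℤ := 2 * k - n with hm
  have hm3 : 3 ≤ m := by omega
  obtain ⟨η, hη1, hη2⟩ := hall (n := n) (m := m) (by omega) (by omega) (by omega)
  let V := {x : Finset ℕ // x ⊆ Icc 1 n ∧ (x.card = k ∨ x.card = k + 1)}
  have vX : ∀ {x : Finset ℕ}, Val n (m + 2) x ↔ x ⊆ Icc 1 n ∧ x.card = k + 1 := by
    intro x
    constructor
    · intro h; have := ht_total h.1; have := h.2; exact ⟨h.1, by omega⟩
    · intro h; have := ht_total h.1; have := h.2; exact ⟨h.1, by omega⟩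
  have vY : ∀ {x : Finset ℕ}, Val n m x ↔ x ⊆ Icc 1 n ∧ x.card = k := by
    intro x
    constructor
    · intro h; have := ht_total h.1; have := h.2; exact ⟨h.1, by omega⟩
    · intro h; have := ht_total h.1; have := h.2; exact ⟨h.1, by omega⟩
  let R : Finset ℕ → Finset ℕ → Prop := fun y x => ∃ b, Flip n m x y b ∧ Edge n x b ∧
    ((Sp n (ht x) b ∧ Sp n (ht y) b) ∨ ((∀ j, j ≤ n → 0 ≤ ht y j) ∧ η y = x))
  let H : SimpleGraph V := SimpleGraph.fromRel fun y x => R y.1 x.1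
  have hR : ∀ y x : V, R y.1 x.1 → H.Adj y x := by
    intro y x h
    refine (SimpleGraph.fromRel_adj _ _ _).2 ⟨fun e => ?_, Or.inl h⟩
    obtain ⟨b, F, -⟩ := h
    have a1 := F.vx.2
    have a2 := F.vy.2
    rw [e] at a2; omega
  have hle : H ≤ G n k := by
    have key : ∀ y x : V, R y.1 x.1 →
        y.1.card = k ∧ x.1.card = k + 1 ∧ Prec n y.1 x.1 := by
      rintro y x ⟨b, F, E, -⟩
      exact ⟨(vY.1 F.vy).2, (vX.1 F.vx).2, prec_of_edge (by omega) F E⟩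
    intro v w h
    obtain ⟨a1, a2⟩ := (SimpleGraph.fromRel_adj _ _ _).1 h
    exact (SimpleGraph.fromRel_adj _ _ _).2 ⟨a1, a2.imp (key v w) (key w v)⟩
  let C : Finset ℕ → Prop := fun w => ∃ (hw : w ⊆ Icc 1 n ∧ (w.card = k ∨ w.card = k + 1)) (r : V),
    Val n (m + 2) r.1 ∧ (∀ j, j ≤ n → 0 ≤ ht r.1 j) ∧ IsRoot n r.1 ∧ H.Reachable ⟨w, hw⟩ r
  have hstep : ∀ x y, R y x → (C x ↔ C y) := by
    intro x y h
    obtain ⟨b, F, -⟩ := id h
    have hx : x ⊆ Icc 1 n ∧ (x.card = k ∨ x.card = k + 1) := ⟨F.vx.1, Or.inr (vX.1 F.vx).2⟩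
    have hy : y ⊆ Icc 1 n ∧ (y.card = k ∨ y.card = k + 1) := ⟨F.vy.1, Or.inl (vY.1 F.vy).2⟩
    have adj := (hR ⟨y, hy⟩ ⟨x, hx⟩ h).reachable
    constructor
    · rintro ⟨_, r, a1, a2, a3, a4⟩
      exact ⟨hy, r, a1, a2, a3, adj.trans a4⟩
    · rintro ⟨_, r, a1, a2, a3, a4⟩
      exact ⟨hx, r, a1, a2, a3, adj.symm.trans a4⟩
  have hC : Inv n m C := fun x y b F E s1 s2 => hstep x y ⟨b, F, E, Or.inl ⟨s1, s2⟩⟩
  have hroot : ∀ x, Val n (m + 2) x → (∀ j, j ≤ n → 0 ≤ ht x j) → IsRoot n x → C x := by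
    intro x hx hpos hr
    have hx' : x ⊆ Icc 1 n ∧ (x.card = k ∨ x.card = k + 1) := ⟨hx.1, Or.inr (vX.1 hx).2⟩
    exact ⟨hx', ⟨x, hx'⟩, hx, hpos, hr, SimpleGraph.Reachable.refl _⟩
  have hall' : ∀ v : V, C v.1 := by
    intro v
    rcases v.2.2 with h | h
    · have hy : Val n m v.1 := vY.2 ⟨v.2.1, h⟩
      by_cases hpos : ∀ j, j ≤ n → 0 ≤ ht v.1 j
      · obtain ⟨b, F, E⟩ := hη1 v.1 hy hpos
        exact (hstep _ _ ⟨b, F, E, Or.inr ⟨hpos, rfl⟩⟩).1 (upper_conn hm3 hC hroot _ F.vx)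
      · exact lower_conn hm3 hC hroot _ hy hpos
    · exact upper_conn hm3 hC hroot _ (vX.2 ⟨v.2.1, h⟩)
  have hconn : H.Connected := by
    have : Nonempty V := ⟨⟨Icc 1 k, Icc_subset_Icc_right (by omega), Or.inl (by simp)⟩⟩
    refine SimpleGraph.Connected.mk fun u v => ?_
    obtain ⟨_, r, a1, a2, a3, a4⟩ := hall' u
    obtain ⟨_, r', b1, b2, b3, b4⟩ := hall' v
    have : r = r' := Subtype.ext (root_unique hm3 a1 b1 a2 b2 a3 b3)
    subst this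
    exact a4.trans b4.symm
  obtain ⟨T, hT1, hT2⟩ := hconn.exists_isTree_le
  refine ⟨T, hT1.trans hle, hT2, fun v => ?_⟩
  let A : Finset (Finset ℕ) := ((range n).filter (Sp n (ht v.1))).image
    fun b => if b + 1 ∈ v.1 then v.1.erase (b + 1) else insert (b + 1) v.1
  have hA : A.card ≤ 2 * Nat.log 2 n + 15 := by
    refine card_image_le.trans ?_
    have := cnt_Sp n (ht v.1)
    unfold cnt at this
    convert this
  let B : Finset (Finset ℕ) := if v.1.card = k then {η v.1} else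
    (powerset (Icc 1 n)).filter fun y => Val n m y ∧ (∀ j, j ≤ n → 0 ≤ ht y j) ∧ η y = v.1
  have hB : B.card ≤ 3 := by
    simp only [B]
    split_ifs
    · simp
    · exact hη2 v.1 _ fun y hy => (mem_filter.1 hy).2
  have hsub : Subtype.val '' T.neighborSet v ⊆ ((A ∪ B : Finset (Finset ℕ)) : Set (Finset ℕ)) := by
    rintro _ ⟨w, hw, rfl⟩
    obtain ⟨-, a2⟩ := (SimpleGraph.fromRel_adj _ _ _).1 (hT1 hw)
    refine mem_coe.2 (mem_union.2 ?_)
    rcases a2 with ⟨b, F, E, ⟨s1, s2⟩ | ⟨s1, s2⟩⟩ | ⟨b, F, E, ⟨s1, s2⟩ | ⟨s1, s2⟩⟩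
    · left
      refine mem_image.2 ⟨b, mem_filter.2 ⟨mem_range.2 F.lt, s2⟩, ?_⟩
      rw [F.eq, if_neg (notMem_erase _ _), insert_erase F.mem]
    · right
      simp only [B, if_pos (vY.1 F.vy).2]
      exact mem_singleton.2 s2.symm
    · left
      refine mem_image.2 ⟨b, mem_filter.2 ⟨mem_range.2 F.lt, s1⟩, ?_⟩
      rw [if_pos F.mem, F.eq]
    · right
      have : ¬ v.1.card = k := by have := (vX.1 F.vx).2; omega
      simp only [B, if_neg this]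
      exact mem_filter.2 ⟨mem_powerset.2 F.vy.1, F.vy, s1, s2⟩
  rw [← Subtype.val_injective.encard_image]
  refine (Set.encard_le_encard hsub).trans ?_
  rw [Set.encard_coe_eq_coe_finsetCard]
  have := card_union_le A B
  exact_mod_cast (by omega)

open Filter in
lemma eventually_range (t : ℝ) (ht : 0 < t) : ∀ᶠ n : ℕ in atTop,
    n + 3 ≤ 2 * ⌊(n : ℝ) / 2 + t * √n⌋₊ ∧ 3 * ⌊(n : ℝ) / 2 + t * √n⌋₊ ≤ 2 * n := by
  have hs : Tendsto (fun n : ℕ => √(n : ℝ)) atTop atTop :=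
    Real.tendsto_sqrt_atTop.comp tendsto_natCast_atTop_atTop
  filter_upwards [hs.eventually_ge_atTop (3 / t), hs.eventually_ge_atTop (6 * t)] with n h1 h2
  have hn : (0 : ℝ) ≤ n := Nat.cast_nonneg n
  have hq := Real.sqrt_nonneg (n : ℝ)
  have hsq := Real.mul_self_sqrt hn
  have h3 : 3 ≤ t * √n := by
    rw [div_le_iff₀ ht] at h1; linarith
  have h4 : 6 * (t * √n) ≤ n := by nlinarith
  have hpos : 0 ≤ (n : ℝ) / 2 + t * √n := by positivity
  have a1 := Nat.floor_le hpos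
  have a2 := Nat.lt_floor_add_one ((n : ℝ) / 2 + t * √n)
  constructor
  · have : (n : ℝ) + 3 ≤ 2 * (⌊(n : ℝ) / 2 + t * √n⌋₊ : ℝ) := by linarith
    exact_mod_cast this
  · have : 3 * (⌊(n : ℝ) / 2 + t * √n⌋₊ : ℝ) ≤ 2 * n := by linarith
    exact_mod_cast this

end Pool.Agent.Lib.MP_ec2aec_co
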