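import Pool.Agent.Lib.MP_ec2aec_co.Heights

set_option autoImplicit false

namespace Pool.Agent.Lib.MP_ec2aec_co

open Finset

/-- positions near the end of the flat part -/
def PA (g : ℕ → ℤ) (b : ℕ) : Prop :=
  ∃ a, IsAlpha g a ∧ (b + 1 = 2 * a ∨ b = 2 * a + 1 ∨ b = 2 * a + 2 ∨ b = 2 * a + 3)

/-- positions near the first down step -/
def PP (g : ℕ → ℤ) (b : ℕ) : Prop :=
  ∃ a p, IsAlpha g a ∧ IsPhi g a p ∧ (b + 2 = p ∨ b = p ∨ b = p + 2)

def PsiY (n : ℕ) (g : ℕ → ℤ) (b : ℕ) : Prop :=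
  ∃ a p, IsAlpha g a ∧ IsPhi g a p ∧ p ≤ b ∧ b < n ∧ (∀ j, p < j → j ≤ n → g (b + 1) ≤ g j) ∧
    ∀ j, p < j → j ≤ b → g (b + 1) < g j

def PsiX (n : ℕ) (g : ℕ → ℤ) (b : ℕ) : Prop :=
  ∃ a p, IsAlpha g a ∧ IsPhi g a p ∧ p ≤ b ∧ b < n ∧ (∀ j, b < j → j ≤ n → g b < g j) ∧
    ∀ j, p ≤ j → j ≤ b → g b ≤ g j

def Mu (n : ℕ) (g : ℕ → ℤ) (b : ℕ) : Prop :=
  b < n ∧ (∀ j, j ≤ n → g (b + 1) ≤ g j) ∧ ∀ j, j ≤ b → g (b + 1) < g j

def PL (n : ℕ) (g : ℕ → ℤ) (b : ℕ) : Prop :=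
  ∃ f, IsFloor n g f ∧ (IsLast n g f b ∨ IsLast n g (f + 3) b ∨ IsLast n g (f + 4) b)

def Z4 (n : ℕ) (g : ℕ → ℤ) (b : ℕ) : Prop :=
  ∃ f e, IsFloor n g f ∧ IsLast n g (f + 2) e ∧ b < e ∧ g (b + 1) = f + 2 ∧
    ∀ j, j ≤ b → 2 * b < e + j → f + 2 < g j

def Z5 (n : ℕ) (g : ℕ → ℤ) (b : ℕ) : Prop :=
  ∃ f e, IsFloor n g f ∧ IsLast n g (f + 2) e ∧ e < b ∧ b < n ∧ g (b + 1) = f + 3 ∧
    ∀ j, j ≤ b → b + e < 2 * j → f + 3 < g j

/-- special positions of a word -/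
def Sp (n : ℕ) (g : ℕ → ℤ) (b : ℕ) : Prop :=
  PA g b ∨ PP g b ∨ PsiY n g b ∨ PsiX n g b ∨ Mu n g b ∨ PL n g b ∨ Z4 n g b ∨ Z5 n g b

open Classical in
/-- number of positions below `n` with a property -/
noncomputable def cnt (n : ℕ) (P : ℕ → Prop) : ℕ := ((range n).filter P).card

lemma cnt_or (n : ℕ) (P Q : ℕ → Prop) : cnt n (fun b => P b ∨ Q b) ≤ cnt n P + cnt n Q := by
  classical
  unfold cnt
  refine le_trans (card_le_card ?_) (card_union_le _ _)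
  intro b hb
  simp only [mem_filter, mem_union] at hb ⊢
  tauto

lemma cnt_mono (n : ℕ) (P Q : ℕ → Prop) (h : ∀ b, P b → Q b) : cnt n P ≤ cnt n Q := by
  unfold cnt
  refine card_le_card ?_
  intro b hb
  simp only [mem_filter] at hb ⊢
  exact ⟨hb.1, h b hb.2⟩

lemma cnt_le_of_subset (n : ℕ) (P : ℕ → Prop) (s : Finset ℕ) (h : ∀ b, P b → b ∈ s) :
    cnt n P ≤ s.card := by
  classical
  unfold cnt
  exact card_le_card fun b hb => h b (mem_filter.1 hb).2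

lemma cnt_le_one (n : ℕ) (P : ℕ → Prop) (h : ∀ b c, P b → P c → b = c) : cnt n P ≤ 1 := by
  classical
  unfold cnt
  exact card_le_one.2 fun b hb c hc => h b c (mem_filter.1 hb).2 (mem_filter.1 hc).2

lemma cnt_zero (n : ℕ) (P : ℕ → Prop) (h : ∀ b, ¬ P b) : cnt n P = 0 := by
  classical
  unfold cnt
  simp [h]

lemma cnt_PA (n : ℕ) (g : ℕ → ℤ) : cnt n (PA g) ≤ 4 := by
  by_cases h : ∃ a, IsAlpha g a
  · obtain ⟨a, ha⟩ := h
    refine (cnt_le_of_subset n _ {2 * a - 1, 2 * a + 1, 2 * a + 2, 2 * a + 3} ?_).trans card_le_four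
    rintro b ⟨a', ha', hb⟩
    have := ha.unique ha'
    subst this
    simp only [mem_insert, mem_singleton]; omega
  · rw [cnt_zero]; · omega
    rintro b ⟨a, ha, -⟩; exact h ⟨a, ha⟩

lemma cnt_PP (n : ℕ) (g : ℕ → ℤ) : cnt n (PP g) ≤ 3 := by
  by_cases h : ∃ a p, IsAlpha g a ∧ IsPhi g a p
  · obtain ⟨a, p, ha, hp⟩ := h
    refine (cnt_le_of_subset n _ {p - 2, p, p + 2} ?_).trans card_le_three
    rintro b ⟨a', p', ha', hp', hb⟩
    have := ha.unique ha'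
    subst this
    have := hp.unique hp'
    subst this
    simp only [mem_insert, mem_singleton]; omega
  · rw [cnt_zero]; · omega
    rintro b ⟨a, p, ha, hp, -⟩; exact h ⟨a, p, ha, hp⟩

lemma cnt_PsiY (n : ℕ) (g : ℕ → ℤ) : cnt n (PsiY n g) ≤ 1 := by
  refine cnt_le_one n _ ?_
  rintro b c ⟨a, p, ha, hp, b1, b2, b3, b4⟩ ⟨a', p', ha', hp', c1, c2, c3, c4⟩
  have := ha.unique ha'
  subst this
  have := hp.unique hp'
  subst this
  rcases lt_trichotomy b c with h | h | h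
  · have := c4 (b + 1) (by omega) (by omega); have := b3 (c + 1) (by omega) (by omega); omega
  · exact h
  · have := b4 (c + 1) (by omega) (by omega); have := c3 (b + 1) (by omega) (by omega); omega

lemma cnt_PsiX (n : ℕ) (g : ℕ → ℤ) : cnt n (PsiX n g) ≤ 1 := by
  refine cnt_le_one n _ ?_
  rintro b c ⟨a, p, ha, hp, b1, b2, b3, b4⟩ ⟨a', p', ha', hp', c1, c2, c3, c4⟩
  have := ha.unique ha'
  subst this
  have := hp.unique hp'
  subst this
  rcases lt_trichotomy b c with h | h | h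
  · have := c4 b (by omega) (by omega); have := b3 c (by omega) (by omega); omega
  · exact h
  · have := b4 c (by omega) (by omega); have := c3 b (by omega) (by omega); omega

lemma cnt_Mu (n : ℕ) (g : ℕ → ℤ) : cnt n (Mu n g) ≤ 1 := by
  refine cnt_le_one n _ ?_
  rintro b c ⟨b1, b2, b3⟩ ⟨c1, c2, c3⟩
  rcases lt_trichotomy b c with h | h | h
  · have := c3 (b + 1) (by omega); have := b2 (c + 1) (by omega); omega
  · exact h
  · have := b3 (c + 1) (by omega); have := c2 (b + 1) (by omega); omega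

lemma cnt_PL (n : ℕ) (g : ℕ → ℤ) : cnt n (PL n g) ≤ 3 := by
  obtain ⟨f, hf⟩ := exists_isFloor n g
  have h1 : cnt n (PL n g) ≤ cnt n (fun b => IsLast n g f b ∨
      (IsLast n g (f + 3) b ∨ IsLast n g (f + 4) b)) := by
    refine cnt_mono n _ _ ?_
    rintro b ⟨f', hf', hb2⟩
    have := hf.unique hf'
    subst this
    exact hb2
  have h2 := cnt_or n (fun b => IsLast n g f b)
    (fun b => IsLast n g (f + 3) b ∨ IsLast n g (f + 4) b)
  have h3 := cnt_or n (fun b => IsLast n g (f + 3) b) (fun b => IsLast n g (f + 4) b)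
  have h4 : ∀ l, cnt n (fun b => IsLast n g l b) ≤ 1 := fun l =>
    cnt_le_one n _ fun b c hb hc => hb.unique hc
  have := h4 f; have := h4 (f + 3); have := h4 (f + 4)
  omega

lemma cnt_Z4 (n : ℕ) (g : ℕ → ℤ) : cnt n (Z4 n g) ≤ Nat.log 2 n + 1 := by
  classical
  by_cases h : ∃ f e, IsFloor n g f ∧ IsLast n g (f + 2) e
  · obtain ⟨f, e, hf, he⟩ := h
    have key : ∀ b, Z4 n g b → b < e ∧ g (b + 1) = f + 2 ∧
        ∀ j, j ≤ b → 2 * b < e + j → f + 2 < g j := by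
      rintro b ⟨f', e', hf', he', h⟩
      have := hf.unique hf'
      subst this
      have := he.unique he'
      subst this
      exact h
    refine card_le_log _ n (fun b => e - b) ?_ ?_
    · intro b hb
      have := (key b (mem_filter.1 hb).2).1
      have := he.1
      constructor <;> omega
    · intro b hb c hc hne
      obtain ⟨b1, b2, b3⟩ := key b (mem_filter.1 hb).2
      obtain ⟨c1, c2, c3⟩ := key c (mem_filter.1 hc).2
      rcases lt_or_gt_of_ne hne with h | h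
      · have := c3 (b + 1) h
        right; omega
      · have := b3 (c + 1) h
        left; omega
  · rw [cnt_zero]; · omega
    rintro b ⟨f, e, hf, he, -⟩; exact h ⟨f, e, hf, he⟩

lemma cnt_Z5 (n : ℕ) (g : ℕ → ℤ) : cnt n (Z5 n g) ≤ Nat.log 2 n + 1 := by
  classical
  by_cases h : ∃ f e, IsFloor n g f ∧ IsLast n g (f + 2) e
  · obtain ⟨f, e, hf, he⟩ := h
    have key : ∀ b, Z5 n g b → e < b ∧ b < n ∧ g (b + 1) = f + 3 ∧
        ∀ j, j ≤ b → b + e < 2 * j → f + 3 < g j := by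
      rintro b ⟨f', e', hf', he', h⟩
      have := hf.unique hf'
      subst this
      have := he.unique he'
      subst this
      exact h
    refine card_le_log _ n (fun b => b - e) ?_ ?_
    · intro b hb
      have := (key b (mem_filter.1 hb).2)
      constructor <;> omega
    · intro b hb c hc hne
      obtain ⟨b1, b0, b2, b3⟩ := key b (mem_filter.1 hb).2
      obtain ⟨c1, c0, c2, c3⟩ := key c (mem_filter.1 hc).2
      rcases lt_or_gt_of_ne hne with h | h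
      · have := c3 (b + 1) h
        left; omega
      · have := b3 (c + 1) h
        right; omega
  · rw [cnt_zero]; · omega
    rintro b ⟨f, e, hf, he, -⟩; exact h ⟨f, e, hf, he⟩

lemma cnt_Sp (n : ℕ) (g : ℕ → ℤ) : cnt n (Sp n g) ≤ 2 * Nat.log 2 n + 15 := by
  have h1 := cnt_or n (PA g) (fun b => PP g b ∨ PsiY n g b ∨ PsiX n g b ∨ Mu n g b ∨ PL n g b ∨
    Z4 n g b ∨ Z5 n g b)
  have h2 := cnt_or n (PP g) (fun b => PsiY n g b ∨ PsiX n g b ∨ Mu n g b ∨ PL n g b ∨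
    Z4 n g b ∨ Z5 n g b)
  have h3 := cnt_or n (PsiY n g) (fun b => PsiX n g b ∨ Mu n g b ∨ PL n g b ∨
    Z4 n g b ∨ Z5 n g b)
  have h4 := cnt_or n (PsiX n g) (fun b => Mu n g b ∨ PL n g b ∨ Z4 n g b ∨ Z5 n g b)
  have h5 := cnt_or n (Mu n g) (fun b => PL n g b ∨ Z4 n g b ∨ Z5 n g b)
  have h6 := cnt_or n (PL n g) (fun b => Z4 n g b ∨ Z5 n g b)
  have h7 := cnt_or n (Z4 n g) (Z5 n g)
  have := cnt_PA n g; have := cnt_PP n g; have := cnt_PsiY n g; have := cnt_PsiX n g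
  have := cnt_Mu n g; have := cnt_PL n g; have := cnt_Z4 n g; have := cnt_Z5 n g
  have e : cnt n (Sp n g) = cnt n (fun b => PA g b ∨ (PP g b ∨ PsiY n g b ∨ PsiX n g b ∨
    Mu n g b ∨ PL n g b ∨ Z4 n g b ∨ Z5 n g b)) := rfl
  omega

end Pool.Agent.Lib.MP_ec2aec_co
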